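import Pool.Agent.Q139.Sec.Plane2
import Pool.Agent.W677.Shadow

set_option autoImplicit false

/-!
Convex bodies in `E × ℝ`: directions for the upper and for the lower part.
-/

open Set Topology Module
open Pool.Agent.H843R3.Had2

namespace Pool.Agent.Q139.Sec

section Gen

variable {E F : Type*} [NormedAddCommGroup E] [NormedSpace ℝ E] [NormedAddCommGroup F]
  [NormedSpace ℝ F]

/-- `k` directions illuminate `P` -/
def Ill (P : Set E) (k : ℕ) : Prop :=
  ∃ D : Finset E, D.card ≤ k ∧ ∀ v ∈ P, ∃ u ∈ D, Co P v u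

theorem Ill.mono {P : Set E} {k l : ℕ} (h : Ill P k) (hkl : k ≤ l) : Ill P l := by
  obtain ⟨D, hD, h1⟩ := h
  exact ⟨D, hD.trans hkl, h1⟩

/-- an affine homeomorphism -/
noncomputable def aff (L : E ≃L[ℝ] F) (c : F) : E ≃ₜ F :=
  L.toHomeomorph.trans (Homeomorph.addRight c)

@[simp] theorem aff_apply (L : E ≃L[ℝ] F) (c : F) (x : E) : aff L c x = L x + c := rfl

theorem co_map (L : E ≃L[ℝ] F) (c : F) {P : Set E} {v u : E} :
    Co (aff L c '' P) (L v + c) (L u) ↔ Co P v u := by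
  have h1 : ∀ ε : ℝ, L v + c + ε • L u ∈ interior (aff L c '' P) ↔
      v + ε • u ∈ interior P := by
    intro ε
    rw [← (aff L c).image_interior]
    have e : L v + c + ε • L u = aff L c (v + ε • u) := by
      rw [aff_apply, map_add, map_smul]; abel
    rw [e, (aff L c).injective.mem_set_image]
  constructor
  · rintro ⟨ε, hε, h⟩
    exact ⟨ε, hε, (h1 ε).1 h⟩
  · rintro ⟨ε, hε, h⟩
    exact ⟨ε, hε, (h1 ε).2 h⟩

theorem Ill.of_map (L : E ≃L[ℝ] F) (c : F) {P : Set E} {k : ℕ} (h : Ill (aff L c '' P) k) :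
    Ill P k := by
  classical
  obtain ⟨D, hD, h1⟩ := h
  refine ⟨D.image L.symm, Finset.card_image_le.trans hD, fun v hv => ?_⟩
  obtain ⟨u, hu, h2⟩ := h1 (L v + c) ⟨v, hv, rfl⟩
  refine ⟨L.symm u, Finset.mem_image_of_mem _ hu, (co_map L c).1 ?_⟩
  rwa [L.apply_symm_apply]

theorem Ill.map (L : E ≃L[ℝ] F) (c : F) {P : Set E} {k : ℕ} (h : Ill P k) :
    Ill (aff L c '' P) k := by
  classical
  obtain ⟨D, hD, h1⟩ := h
  refine ⟨D.image L, Finset.card_image_le.trans hD, ?_⟩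
  rintro _ ⟨v, hv, rfl⟩
  obtain ⟨u, hu, h2⟩ := h1 v hv
  exact ⟨L u, Finset.mem_image_of_mem _ hu, (co_map L c).2 h2⟩

theorem isOpen_co (P : Set E) (u : E) : IsOpen {v | Co P v u} := by
  have : {v | Co P v u} = ⋃ ε : {ε : ℝ // 0 < ε}, {v | v + (ε : ℝ) • u ∈ interior P} := by
    ext v
    simp only [Set.mem_ofPred_eq, mem_iUnion, Subtype.exists, exists_prop]
    rfl
  rw [this]
  refine isOpen_iUnion fun ε => ?_
  exact isOpen_interior.preimage (continuous_id.add continuous_const)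

/-- the part of `P` which is not illuminated by the directions of `D` -/
def rest (P : Set E) (D : Finset E) : Set E := {v | v ∈ P ∧ ∀ u ∈ D, ¬ Co P v u}

theorem rest_compact {P : Set E} (hP : IsCompact P) (D : Finset E) : IsCompact (rest P D) := by
  have : rest P D = P ∩ ⋂ u ∈ D, {v | Co P v u}ᶜ := by
    ext v
    simp only [rest, Set.mem_ofPred_eq, mem_inter_iff, mem_iInter, mem_compl_iff]
  rw [this]
  refine hP.inter_right (isClosed_biInter fun u _ => ?_)
  exact (isOpen_co P u).isClosed_compl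

theorem rest_sub {P : Set E} {D : Finset E} : rest P D ⊆ P := fun _ h => h.1

/-- reflection in the hyperplane -/
noncomputable def refl : (E × ℝ) ≃L[ℝ] (E × ℝ) :=
  (ContinuousLinearEquiv.refl ℝ E).prodCongr (ContinuousLinearEquiv.neg ℝ)

@[simp] theorem refl_apply (v : E × ℝ) : refl v = (v.1, -v.2) := rfl

/-- the reflected body -/
def flip (P : Set (E × ℝ)) : Set (E × ℝ) := aff (refl (E := E)) (0 : E × ℝ) '' P

theorem flip_eq (P : Set (E × ℝ)) : flip P = aff (refl (E := E)) (0 : E × ℝ) '' P := rfl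

theorem flip_compact {P : Set (E × ℝ)} (h : IsCompact P) : IsCompact (flip P) := by
  rw [flip_eq]
  exact h.image (aff (refl (E := E)) (0 : E × ℝ)).continuous

theorem mem_flip {P : Set (E × ℝ)} {v : E × ℝ} : v ∈ flip P ↔ (v.1, -v.2) ∈ P := by
  constructor
  · rintro ⟨w, hw, rfl⟩
    simpa using hw
  · intro h
    exact ⟨(v.1, -v.2), h, by simp⟩

theorem co_flip {P : Set (E × ℝ)} {v u : E × ℝ} :
    Co (flip P) (v.1, -v.2) (u.1, -u.2) ↔ Co P v u := by
  have := co_map (refl (E := E)) 0 (P := P) (v := v) (u := u)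
  rw [add_zero] at this
  exact this

theorem co_flip' {P : Set (E × ℝ)} {v u : E × ℝ} :
    Co (flip P) v u ↔ Co P (v.1, -v.2) (u.1, -u.2) := by
  rw [← co_flip (v := (v.1, -v.2)) (u := (u.1, -u.2))]
  simp

/-- a convex body in `E × ℝ` with the shadow `Q` -/
structure Body (P : Set (E × ℝ)) (Q : Set E) : Prop where
  conv : Convex ℝ P
  comp : IsCompact P
  int : (interior P).Nonempty
  shadow : Q = Prod.fst '' P

variable {P : Set (E × ℝ)} {Q : Set E}

theorem flip_flip : flip (flip P) = P := by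
  ext v
  rw [mem_flip, mem_flip]
  simp

theorem Body.flip (H : Body P Q) : Body (flip P) Q := by
  refine ⟨?_, ?_, ?_, ?_⟩
  · intro v hv w hw a b ha hb hab
    rw [mem_flip] at hv hw ⊢
    have := H.conv hv hw ha hb hab
    convert this using 1
    simp
    ring
  · exact flip_compact H.comp
  · rw [flip_eq, ← (aff (refl (E := E)) (0 : E × ℝ)).image_interior]
    exact H.int.image _
  · rw [H.shadow]
    ext w
    constructor
    · rintro ⟨v, hv, rfl⟩
      exact ⟨(v.1, -v.2), by rw [mem_flip]; simpa using hv, rfl⟩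
    · rintro ⟨v, hv, rfl⟩
      rw [mem_flip] at hv
      exact ⟨_, hv, rfl⟩

theorem Body.mem (H : Body P Q) {v : E × ℝ} (hv : v ∈ P) : v.1 ∈ Q := by
  rw [H.shadow]; exact ⟨v, hv, rfl⟩

theorem Body.convQ (H : Body P Q) : Convex ℝ Q := by
  rw [H.shadow]
  exact H.conv.linear_image (LinearMap.fst ℝ E ℝ)

theorem Body.compQ (H : Body P Q) : IsCompact Q := by
  rw [H.shadow]
  exact H.comp.image continuous_fst

theorem Body.lift (H : Body P Q) {w : E} (hw : w ∈ interior Q) : ∃ h, (w, h) ∈ interior P := by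
  obtain ⟨p₀, hp₀⟩ := H.int
  have h1 : (ContinuousLinearMap.fst ℝ E ℝ) '' P = Q := by rw [H.shadow]; rfl
  rw [← h1] at hw
  obtain ⟨y, hy, h2⟩ := Pool.Agent.W677.Shadow.lift_int H.conv hp₀
    (ContinuousLinearMap.fst ℝ E ℝ) hw
  exact ⟨y.2, by rw [← h2]; exact hy⟩

theorem Body.fst_int (H : Body P Q) {v : E × ℝ} (hv : v ∈ interior P) : v.1 ∈ interior Q := by
  have h1 : IsOpen (Prod.fst '' interior P) := isOpenMap_fst _ isOpen_interior
  refine mem_interior.2 ⟨_, ?_, h1, ⟨v, hv, rfl⟩⟩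
  rw [H.shadow]
  exact image_mono interior_subset

theorem Body.intQ (H : Body P Q) : (interior Q).Nonempty := by
  obtain ⟨v, hv⟩ := H.int
  exact ⟨_, H.fst_int hv⟩

theorem Body.bound (H : Body P Q) : ∃ M : ℝ, ∀ v ∈ P, |v.2| ≤ M := by
  obtain ⟨M, hM⟩ := H.comp.exists_bound_of_continuousOn (f := fun v : E × ℝ => v.2)
    continuous_snd.continuousOn
  exact ⟨M, fun v hv => by simpa using hM v hv⟩

theorem Body.down (H : Body P Q) {x t : E} {h h' h₁ Θ : ℝ} (hv' : (x, h') ∈ P)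
    (hlt : h' < h) (hv₁ : (x + t, h₁) ∈ interior P) (hΘ : h < Θ + h₁) :
    Co P (x, h) (t, -Θ) := by
  obtain ⟨a, ha⟩ : ∃ a, a = h - h' := ⟨_, rfl⟩
  obtain ⟨b, hb⟩ : ∃ b, b = Θ + h₁ - h := ⟨_, rfl⟩
  have ha0 : 0 < a := by linarith
  have hb0 : 0 < b := by linarith
  refine ⟨a / (a + b), by positivity, ?_⟩
  have e3 : (x, h) + (a / (a + b)) • ((t, -Θ) : E × ℝ) =
      (b / (a + b)) • (x, h') + (a / (a + b)) • (x + t, h₁) := by
    have h4 : b / (a + b) = 1 - a / (a + b) := by field_simp; ring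
    ext1
    · show x + (a / (a + b)) • t = (b / (a + b)) • x + (a / (a + b)) • (x + t)
      rw [h4]; module
    · show h + (a / (a + b)) * (-Θ) = (b / (a + b)) * h' + (a / (a + b)) * h₁
      have h5 : h' = h - a := by linarith
      have h6 : h₁ = b - Θ + h := by linarith
      rw [h5, h6]
      field_simp
      ring
  rw [e3]
  exact H.conv.combo_self_interior_mem_interior hv' hv₁ (by positivity) (by positivity)
    (by field_simp; ring)

/-- directions for the points which are not lowest points -/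
theorem Body.stepT (H : Body P Q) {S : Set (E × ℝ)} (hS : IsCompact S) (hSP : S ⊆ P)
    (D : Finset E) (hD : ∀ v ∈ S, ∃ t ∈ D, Co Q v.1 t) :
    ∃ D' : Finset (E × ℝ), D'.card ≤ D.card ∧
      ∀ v ∈ S, (∃ h' < v.2, (v.1, h') ∈ P) → ∃ u ∈ D', Co P v u := by
  classical
  obtain ⟨M, hM⟩ := H.bound
  obtain ⟨r, hr, hr1⟩ := unif H.convQ (hS.image continuous_fst) (by
    rintro _ ⟨v, hv, rfl⟩; exact H.mem (hSP hv)) (fun w : D => (w : E)) (by
    rintro _ ⟨v, hv, rfl⟩
    obtain ⟨t, ht, h1⟩ := hD v hv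
    exact ⟨⟨t, ht⟩, h1⟩)
  refine ⟨D.image (fun t => (r • t, -(2 * M + 1))), Finset.card_image_le, ?_⟩
  rintro ⟨x, h⟩ hv ⟨h', hlt, hv'⟩
  obtain ⟨⟨t, ht⟩, h1⟩ := hr1 _ ⟨(x, h), hv, rfl⟩
  obtain ⟨h₁, hv₁⟩ := H.lift h1
  refine ⟨(r • t, -(2 * M + 1)), Finset.mem_image_of_mem _ ht, H.down hv' hlt hv₁ ?_⟩
  have e1 := (abs_le.1 (hM _ (hSP hv))).2
  have e2 := (abs_le.1 (hM _ (interior_subset hv₁))).1
  simp only at e1 e2
  linarith

/-- directions for the points which are not highest points -/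
theorem Body.stepB (H : Body P Q) {S : Set (E × ℝ)} (hS : IsCompact S) (hSP : S ⊆ P)
    (D : Finset E) (hD : ∀ v ∈ S, ∃ t ∈ D, Co Q v.1 t) :
    ∃ D' : Finset (E × ℝ), D'.card ≤ D.card ∧
      ∀ v ∈ S, (∃ h' > v.2, (v.1, h') ∈ P) → ∃ u ∈ D', Co P v u := by
  classical
  obtain ⟨D', hD', h1⟩ := H.flip.stepT (S := Sec.flip S) (flip_compact hS)
    (fun v hv => by
      rw [mem_flip] at hv ⊢
      exact hSP hv) D (fun v hv => by
      rw [mem_flip] at hv
      exact hD (v.1, -v.2) hv)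
  refine ⟨D'.image (fun u => (u.1, -u.2)), Finset.card_image_le.trans hD', ?_⟩
  rintro ⟨x, h⟩ hv ⟨h', hlt, hv'⟩
  obtain ⟨u, hu, h2⟩ := h1 (x, -h) (by rw [mem_flip]; simpa using hv) ⟨-h', by simpa using hlt, by
    rw [mem_flip]; simpa using hv'⟩
  refine ⟨(u.1, -u.2), Finset.mem_image_of_mem (fun u : E × ℝ => (u.1, -u.2)) hu, ?_⟩
  rw [co_flip'] at h2
  simpa using h2

end Gen

end Pool.Agent.Q139.Sec
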