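import Pool.Agent.Q139.Sec.Nf

set_option autoImplicit false

/-!
Convex bodies in `E × ℝ` whose section by `E × {0}` is the projection to `E`.
-/

open Set Topology Module
open Pool.Agent.H843R3.Had2

namespace Pool.Agent.Q139.Sec

variable {E : Type*} [NormedAddCommGroup E] [NormedSpace ℝ E]

/-- the section by `E × {0}` is the shadow -/
structure Sh (P : Set (E × ℝ)) (Q : Set E) : Prop extends Body P Q where
  sec : ∀ w ∈ Q, (w, (0 : ℝ)) ∈ P

/-- the section meets the interior -/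
structure Two (P : Set (E × ℝ)) (Q : Set E) : Prop extends Sh P Q where
  mid : ∀ w ∈ interior Q, (w, (0 : ℝ)) ∈ interior P

variable {P : Set (E × ℝ)} {Q : Set E}

theorem Sh.flip (H : Sh P Q) : Sh (flip P) Q :=
  { H.toBody.flip with
    sec := fun w hw => by
      rw [mem_flip]
      simpa using H.sec w hw }

theorem mem_flip_int {v : E × ℝ} : v ∈ interior (flip P) ↔ (v.1, -v.2) ∈ interior P := by
  rw [flip_eq, ← (aff (refl (E := E)) (0 : E × ℝ)).image_interior, ← flip_eq, mem_flip]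

theorem Sh.low_int (H : Sh P Q) {x : E} {h s : ℝ} (hv : (x, h) ∈ interior P) (hs0 : 0 < s)
    (hs1 : s ≤ 1) : (x, s * h) ∈ interior P := by
  have h1 := H.sec x (H.mem (interior_subset hv))
  have h2 := H.conv.combo_self_interior_mem_interior h1 hv (a := 1 - s) (b := s) (by linarith)
    hs0 (by ring)
  convert h2 using 1
  ext1
  · show x = (1 - s) • x + s • x
    module
  · show s * h = (1 - s) * 0 + s * h
    ring

theorem pos_int (hlow : ∀ v ∈ P, 0 ≤ v.2) {v : E × ℝ} (hv : v ∈ interior P) :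
    0 < v.2 := by
  obtain ⟨δ, hδ, h1⟩ := Co.of_interior hv ((0 : E), (-1 : ℝ))
  have h2 := hlow _ (interior_subset h1)
  have h3 : (v + δ • ((0 : E), (-1 : ℝ))).2 = v.2 + δ * (-1) := rfl
  rw [h3] at h2
  linarith

/-- the section supports the body -/
theorem Sh.facet (H : Sh P Q) (hlow : ∀ v ∈ P, 0 ≤ v.2) (W : Finset E)
    (hW : ∀ y ∈ Q, ∃ w ∈ W, Co Q y w) : Ill P (2 * W.card) := by
  classical
  obtain ⟨D₁, hD₁, h1⟩ := H.stepT H.comp subset_rfl W (fun v hv => hW _ (H.mem hv))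
  set U : ℕ → Set E := fun k => {y | ∃ w ∈ W, Co P (y, (0 : ℝ)) (w, 1 / ((k : ℝ) + 1))} with hU
  have hUo : ∀ k, IsOpen (U k) := by
    intro k
    have : U k = ⋃ w ∈ W, (fun y : E => (y, (0 : ℝ))) ⁻¹'
        {v | Co P v (w, 1 / ((k : ℝ) + 1))} := by
      ext y
      simp only [hU, Set.mem_ofPred_eq, mem_iUnion, mem_preimage, exists_prop]
    rw [this]
    refine isOpen_biUnion fun w _ => ?_
    exact (isOpen_co P _).preimage (by fun_prop)
  have hmono : ∀ k l, k ≤ l → U k ⊆ U l := by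
    rintro k l hkl y ⟨w, hw, ε, hε, h2⟩
    refine ⟨w, hw, ε, hε, ?_⟩
    have e : ∀ m : ℕ, ((y, (0 : ℝ)) : E × ℝ) + ε • ((w, 1 / ((m : ℝ) + 1)) : E × ℝ) =
        (y + ε • w, ε * (1 / ((m : ℝ) + 1))) := by
      intro m
      ext1
      · rfl
      · show 0 + ε * (1 / ((m : ℝ) + 1)) = _
        rw [zero_add]
    rw [e] at h2 ⊢
    have hk : (0 : ℝ) < (k : ℝ) + 1 := by positivity
    have hl : (0 : ℝ) < (l : ℝ) + 1 := by positivity
    have hkl' : (k : ℝ) + 1 ≤ (l : ℝ) + 1 := by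
      have : (k : ℝ) ≤ l := by exact_mod_cast hkl
      linarith
    have h3 := H.low_int h2 (s := ((k : ℝ) + 1) / ((l : ℝ) + 1)) (by positivity)
      ((div_le_one hl).2 hkl')
    convert h3 using 2
    field_simp
  have hcov : Q ⊆ ⋃ k, U k := by
    intro y hy
    obtain ⟨w, hw, ε, hε, h2⟩ := hW y hy
    obtain ⟨h, hh⟩ := H.lift h2
    have h0 : 0 < h := pos_int hlow hh
    obtain ⟨k, hk⟩ := exists_nat_gt (ε / h)
    refine mem_iUnion.2 ⟨k, w, hw, ε, hε, ?_⟩
    have e : ((y, (0 : ℝ)) : E × ℝ) + ε • ((w, 1 / ((k : ℝ) + 1)) : E × ℝ) =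
        (y + ε • w, ε / (h * ((k : ℝ) + 1)) * h) := by
      ext1
      · rfl
      · show 0 + ε * (1 / ((k : ℝ) + 1)) = _
        field_simp
        ring
    rw [e]
    refine H.low_int hh (by positivity) ?_
    rw [div_le_one (by positivity)]
    rw [div_lt_iff₀ h0] at hk
    nlinarith
  obtain ⟨k, hk⟩ := H.compQ.elim_directed_cover U hUo hcov
    (directed_of_isDirected_le (fun k l hkl => hmono k l hkl))
  refine ⟨D₁ ∪ W.image (fun w => (w, 1 / ((k : ℝ) + 1))), ?_, fun v hv => ?_⟩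
  · refine (Finset.card_union_le _ _).trans ?_
    have h3 : (W.image (fun w => (w, 1 / ((k : ℝ) + 1)))).card ≤ W.card := Finset.card_image_le
    omega
  · have h4 := hlow v hv
    rcases h4.eq_or_lt with h5 | h5
    · obtain ⟨w, hw, h6⟩ := hk (H.mem hv)
      refine ⟨_, Finset.mem_union_right _ (Finset.mem_image_of_mem _ hw), ?_⟩
      have : v = (v.1, (0 : ℝ)) := by
        ext1
        · rfl
        · exact h5.symm
      rw [this]; exact h6
    · obtain ⟨u, hu, h6⟩ := h1 v hv ⟨0, h5, H.sec _ (H.mem hv)⟩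
      exact ⟨u, Finset.mem_union_left _ hu, h6⟩

theorem Sh.mid_pos (H : Sh P Q) {v : E × ℝ} (hv : v ∈ P) (hv2 : v.2 < 0) {w : E} {h : ℝ}
    (hw : (w, h) ∈ interior P) (hh : 0 < h) : (w, (0 : ℝ)) ∈ interior P := by
  have hwQ := H.fst_int hw
  obtain ⟨δ, hδ, h1⟩ := Co.of_interior hwQ (w - v.1)
  have h2 := H.sec _ (interior_subset h1)
  obtain ⟨b, hb⟩ : ∃ b, b = (δ / (1 + δ)) * v.2 := ⟨_, rfl⟩
  have hb0 : b < 0 := by rw [hb]; exact mul_neg_of_pos_of_neg (by positivity) hv2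
  have h3 : (w, b) ∈ P := by
    have := H.conv hv h2 (a := δ / (1 + δ)) (b := 1 / (1 + δ)) (by positivity) (by positivity)
      (by field_simp; ring)
    convert this using 1
    ext1
    · show w = (δ / (1 + δ)) • v.1 + (1 / (1 + δ)) • (w + δ • (w - v.1))
      have e1 : (1 / (1 + δ)) = 1 - δ / (1 + δ) := by field_simp; ring
      have e2 : (1 / (1 + δ)) * δ = δ / (1 + δ) := by ring
      rw [smul_add (1 / (1 + δ)), smul_smul, e2, e1]
      module
    · show b = δ / (1 + δ) * v.2 + 1 / (1 + δ) * 0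
      rw [hb]; ring
  have h4 := H.conv.combo_self_interior_mem_interior h3 hw (a := h / (h - b))
    (b := -b / (h - b)) (div_nonneg hh.le (by linarith)) (div_pos (by linarith) (by linarith))
    (by
      have : h - b ≠ 0 := by linarith
      field_simp
      ring)
  convert h4 using 1
  have hne : h - b ≠ 0 := by linarith
  ext1
  · show w = (h / (h - b)) • w + (-b / (h - b)) • w
    rw [← add_smul]
    have : h / (h - b) + -b / (h - b) = 1 := by field_simp; ring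
    rw [this, one_smul]
  · show 0 = h / (h - b) * b + -b / (h - b) * h
    field_simp
    ring

theorem Sh.two (H : Sh P Q) (hu : ∃ v ∈ P, 0 < v.2) (hd : ∃ v ∈ P, v.2 < 0) : Two P Q :=
  { H with
    mid := by
      intro w hw
      obtain ⟨h, hh⟩ := H.lift hw
      rcases lt_trichotomy h 0 with h0 | h0 | h0
      · obtain ⟨v, hv, hv2⟩ := hu
        have := H.flip.mid_pos (v := (v.1, -v.2)) (by rw [mem_flip]; simpa using hv)
          (by simpa using hv2) (w := w) (h := -h) (by rw [mem_flip_int]; simpa using hh)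
          (by linarith)
        rw [mem_flip_int] at this
        simpa using this
      · rw [h0] at hh; exact hh
      · obtain ⟨v, hv, hv2⟩ := hd
        exact H.mid_pos hv hv2 hh h0 }

theorem Two.slope (H : Two P Q) {y m : E} (h : Co Q y m) : Co P (y, (0 : ℝ)) (m, (0 : ℝ)) := by
  obtain ⟨ε, hε, h1⟩ := h
  refine ⟨ε, hε, ?_⟩
  have := H.mid _ h1
  convert this using 1
  ext1
  · rfl
  · show 0 + ε * 0 = (0 : ℝ)
    ring

/-- the first count -/
theorem Two.count1 (H : Two P Q) (M : Finset (E × ℝ)) (T B : Finset E)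
    (hT : ∀ v ∈ rest P M, ∃ t ∈ T, Co Q v.1 t) (hB : ∀ v ∈ rest P M, ∃ t ∈ B, Co Q v.1 t)
    (hZ : ∀ v ∈ rest P M, v.2 = 0 → ∃ h ≠ 0, (v.1, h) ∈ P) :
    Ill P (M.card + T.card + B.card) := by
  classical
  obtain ⟨D₁, hD₁, h1⟩ := H.stepT (rest_compact H.comp M) rest_sub T hT
  obtain ⟨D₂, hD₂, h2⟩ := H.stepB (rest_compact H.comp M) rest_sub B hB
  refine ⟨M ∪ D₁ ∪ D₂, ?_, fun v hv => ?_⟩
  · have := Finset.card_union_le (M ∪ D₁) D₂
    have := Finset.card_union_le M D₁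
    omega
  · by_cases hvM : ∃ u ∈ M, Co P v u
    · obtain ⟨u, hu, h3⟩ := hvM
      exact ⟨u, Finset.mem_union_left _ (Finset.mem_union_left _ hu), h3⟩
    · push Not at hvM
      have hvr : v ∈ rest P M := ⟨hv, hvM⟩
      have h0 := H.sec _ (H.mem hv)
      have hlow : (∃ h < v.2, (v.1, h) ∈ P) → ∃ u ∈ M ∪ D₁ ∪ D₂, Co P v u := fun h => by
        obtain ⟨u, hu, h3⟩ := h1 v hvr h
        exact ⟨u, Finset.mem_union_left _ (Finset.mem_union_right _ hu), h3⟩
      have hup : (∃ h > v.2, (v.1, h) ∈ P) → ∃ u ∈ M ∪ D₁ ∪ D₂, Co P v u := fun h => by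
        obtain ⟨u, hu, h3⟩ := h2 v hvr h
        exact ⟨u, Finset.mem_union_right _ hu, h3⟩
      rcases lt_trichotomy v.2 0 with h3 | h3 | h3
      · exact hup ⟨0, h3, h0⟩
      · obtain ⟨h, hh, h4⟩ := hZ v hvr h3
        rcases lt_or_gt_of_ne hh with h5 | h5
        · exact hlow ⟨h, by rw [h3]; exact h5, h4⟩
        · exact hup ⟨h, by rw [h3]; exact h5, h4⟩
      · exact hlow ⟨0, h3, h0⟩

/-- the second count -/
theorem Two.count2 (H : Two P Q) (B M : Finset (E × ℝ)) (T : Finset E)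
    (hB : ∀ v ∈ P, (∃ h > v.2, (v.1, h) ∈ P) → ∃ u ∈ B, Co P v u)
    (hsec : ∀ y ∈ Q, (∃ u ∈ M, Co P (y, (0 : ℝ)) u) ∨ ∃ u ∈ B, Co P (y, (0 : ℝ)) u)
    (hT : ∀ v ∈ P, (∀ u ∈ M, ¬ Co P v u) → (∀ h, (v.1, h) ∈ P → h ≤ v.2) → 0 < v.2 →
      ∃ t ∈ T, Co Q v.1 t) : Ill P (M.card + B.card + T.card) := by
  classical
  have key : ∀ v ∈ rest P (M ∪ B), (∀ u ∈ M, ¬ Co P v u) ∧ (∀ h, (v.1, h) ∈ P → h ≤ v.2) ∧
      0 < v.2 := by
    rintro v ⟨hv, hv1⟩
    have h1 : ∀ u ∈ M, ¬ Co P v u := fun u hu => hv1 u (Finset.mem_union_left _ hu)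
    have h2 : ∀ u ∈ B, ¬ Co P v u := fun u hu => hv1 u (Finset.mem_union_right _ hu)
    have h3 : ∀ h, (v.1, h) ∈ P → h ≤ v.2 := by
      intro h hh
      by_contra hlt
      push Not at hlt
      obtain ⟨u, hu, h4⟩ := hB v hv ⟨h, hlt, hh⟩
      exact h2 u hu h4
    refine ⟨h1, h3, lt_of_le_of_ne (h3 0 (H.sec _ (H.mem hv))) fun h0 => ?_⟩
    have e : v = (v.1, (0 : ℝ)) := by
      ext1
      · rfl
      · exact h0.symm
    rcases hsec _ (H.mem hv) with ⟨u, hu, h4⟩ | ⟨u, hu, h4⟩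
    · exact h1 u hu (by rw [e]; exact h4)
    · exact h2 u hu (by rw [e]; exact h4)
  obtain ⟨D, hD, h1⟩ := H.stepT (rest_compact H.comp (M ∪ B)) rest_sub T (fun v hv => by
    obtain ⟨k1, k2, k3⟩ := key v hv
    exact hT v hv.1 k1 k2 k3)
  refine ⟨M ∪ B ∪ D, ?_, fun v hv => ?_⟩
  · have := Finset.card_union_le (M ∪ B) D
    have := Finset.card_union_le M B
    omega
  · by_cases hvM : ∃ u ∈ M ∪ B, Co P v u
    · obtain ⟨u, hu, h3⟩ := hvM
      exact ⟨u, Finset.mem_union_left _ hu, h3⟩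
    · push Not at hvM
      have hvr : v ∈ rest P (M ∪ B) := ⟨hv, hvM⟩
      obtain ⟨u, hu, h3⟩ := h1 v hvr ⟨0, (key v hvr).2.2, H.sec _ (H.mem hv)⟩
      exact ⟨u, Finset.mem_union_right _ hu, h3⟩

end Pool.Agent.Q139.Sec
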