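import Pool.Agent.Q139.Sec.Plane2

set_option autoImplicit false

/-!
Sets of contact points on a line.
-/

open Set Topology Module
open scoped InnerProductSpace
open Pool.Agent.H843R3.Had2

namespace Pool.Agent.Q139.Sec

variable {Q : Set E2}

theorem flat_line {X : Set E2} (hne : X.Nonempty)
    (hflat : ¬ (interior (convexHull ℝ X)).Nonempty) :
    ∃ (f : E2) (c : ℝ), f ≠ 0 ∧ ∀ x ∈ X, ⟪f, x⟫_ℝ = c := by
  obtain ⟨x₀, hx₀⟩ := hne
  rw [interior_convexHull_nonempty_iff_affineSpan_eq_top] at hflat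
  have h1 : (affineSpan ℝ X).direction ≠ ⊤ := by
    intro h
    apply hflat
    refine (AffineSubspace.direction_eq_top_iff_of_nonempty ?_).1 h
    exact ⟨x₀, subset_affineSpan ℝ X hx₀⟩
  have h2 : ((affineSpan ℝ X).direction)ᗮ ≠ ⊥ := by
    rwa [Ne, Submodule.orthogonal_eq_bot_iff]
  obtain ⟨f, hf, hf0⟩ := Submodule.exists_mem_ne_zero_of_ne_bot h2
  refine ⟨f, ⟪f, x₀⟫_ℝ, hf0, fun x hx => ?_⟩
  have h3 : x - x₀ ∈ (affineSpan ℝ X).direction := by
    have := AffineSubspace.vsub_mem_direction (subset_affineSpan ℝ X hx)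
      (subset_affineSpan ℝ X hx₀)
    simpa using this
  have h4 := (Submodule.mem_orthogonal' _ _).1 hf _ h3
  rw [inner_sub_right] at h4
  linarith

/-- the line does not meet both sides -/
theorem one_side (hQc : IsCompact Q) {X : Set E2}
    (hG : ∀ ν p q, Gen Q ν p q → p ∈ X ∨ q ∈ X) {f : E2} {c : ℝ}
    (hX : ∀ x ∈ X, ⟪f, x⟫_ℝ = c) (h1 : ∃ y ∈ Q, c < ⟪f, y⟫_ℝ) (h2 : ∃ y ∈ Q, ⟪f, y⟫_ℝ < c) :
    False := by
  obtain ⟨y, hy, hyc⟩ := h1
  obtain ⟨z, hz, hzc⟩ := h2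
  obtain ⟨C, hC⟩ := hQc.isBounded.exists_norm_le
  have hC0 : 0 ≤ C := (norm_nonneg y).trans (hC y hy)
  set r : ℝ := min (⟪f, y⟫_ℝ - c) (c - ⟪f, z⟫_ℝ) / (2 * (C + 1)) with hr
  have hm : 0 < min (⟪f, y⟫_ℝ - c) (c - ⟪f, z⟫_ℝ) := lt_min (by linarith) (by linarith)
  have hr0 : 0 < r := by positivity
  obtain ⟨ν, ⟨p, q, hg⟩, hν⟩ := (gen_dense hQc ⟨y, hy⟩).exists_mem_open
    (Metric.isOpen_ball (x := f) (ε := r)) ⟨f, Metric.mem_ball_self hr0⟩
  rw [Metric.mem_ball, dist_eq_norm] at hν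
  have hb : ∀ x ∈ Q, |⟪ν, x⟫_ℝ - ⟪f, x⟫_ℝ| ≤ r * C := by
    intro x hx
    rw [← inner_sub_left]
    exact (abs_real_inner_le_norm _ _).trans
      (mul_le_mul hν.le (hC x hx) (norm_nonneg _) hr0.le)
  have hrC : 2 * (r * C) < min (⟪f, y⟫_ℝ - c) (c - ⟪f, z⟫_ℝ) := by
    have h3 : 2 * (r * (C + 1)) = min (⟪f, y⟫_ℝ - c) (c - ⟪f, z⟫_ℝ) := by
      rw [hr]; field_simp
    have h4 : 2 * (r * C) < 2 * (r * (C + 1)) := by
      have : r * C < r * (C + 1) := mul_lt_mul_of_pos_left (by linarith) hr0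
      linarith
    linarith
  have hrC1 := hrC.trans_le (min_le_left _ _)
  have hrC2 := hrC.trans_le (min_le_right _ _)
  have hmaxp : ∀ x ∈ Q, ⟪ν, x⟫_ℝ ≤ ⟪ν, p⟫_ℝ := fun x hx => by
    by_cases h : x = p
    · rw [h]
    · exact (hg.max x hx h).le
  have hminq : ∀ x ∈ Q, ⟪ν, q⟫_ℝ ≤ ⟪ν, x⟫_ℝ := fun x hx => by
    by_cases h : x = q
    · rw [h]
    · exact (hg.min x hx h).le
  have hp : c < ⟪f, p⟫_ℝ := by
    have e1 := abs_le.1 (hb p hg.hp)
    have e2 := abs_le.1 (hb y hy)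
    have e3 := hmaxp y hy
    linarith [e1.1, e1.2, e2.1, e2.2]
  have hq : ⟪f, q⟫_ℝ < c := by
    have e1 := abs_le.1 (hb q hg.hq)
    have e2 := abs_le.1 (hb z hz)
    have e3 := hminq z hz
    linarith [e1.1, e1.2, e2.1, e2.2]
  rcases hG ν p q hg with h | h
  · have := hX _ h; linarith
  · have := hX _ h; linarith

/-- **Contact points on a line.** -/
theorem line_case (hQ : Convex ℝ Q) (hQc : IsCompact Q) (hi : (interior Q).Nonempty) {X : Set E2}
    (hX : ∀ x ∈ X, ∃ ν p q, Gen Q ν p q ∧ (x = p ∨ x = q))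
    (hG : ∀ ν p q, Gen Q ν p q → p ∈ X ∨ q ∈ X)
    (hflat : ¬ (interior (convexHull ℝ X)).Nonempty) :
    ∃ a ∈ X, ∃ b ∈ X, ∃ D : Finset E2, D.card ≤ 2 ∧
      ∀ z ∈ Q, z ∈ segment ℝ b a ∨ ∃ u ∈ D, Co Q z u := by
  have hQne : Q.Nonempty := hi.mono interior_subset
  have hXQ : X ⊆ Q := by
    intro x hx
    obtain ⟨ν, p, q, h, rfl | rfl⟩ := hX x hx
    · exact h.hp
    · exact h.hq
  have hXne : X.Nonempty := by
    obtain ⟨ν, p, q, h⟩ := (gen_dense hQc hQne).nonempty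
    rcases hG ν p q h with h1 | h1
    · exact ⟨p, h1⟩
    · exact ⟨q, h1⟩
  -- the supporting line
  obtain ⟨f, c, hf0, hfX, hfQ⟩ : ∃ (f : E2) (c : ℝ), f ≠ 0 ∧ (∀ x ∈ X, ⟪f, x⟫_ℝ = c) ∧
      ∀ z ∈ Q, ⟪f, z⟫_ℝ ≤ c := by
    obtain ⟨f, c, hf0, hfX⟩ := flat_line hXne hflat
    by_cases h1 : ∃ y ∈ Q, c < ⟪f, y⟫_ℝ
    · by_cases h2 : ∃ y ∈ Q, ⟪f, y⟫_ℝ < c
      · exact (one_side hQc hG hfX h1 h2).elim
      · push Not at h2
        refine ⟨-f, -c, neg_ne_zero.2 hf0, fun x hx => by rw [inner_neg_left, hfX x hx],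
          fun z hz => ?_⟩
        rw [inner_neg_left]
        linarith [h2 z hz]
    · push Not at h1
      exact ⟨f, c, hf0, hfX, h1⟩
  have hcl : closure X ⊆ Q := hQc.isClosed.closure_subset_iff.2 hXQ
  obtain ⟨ν, hν0, a, ha, b, hb, hlt, hmax, hmin⟩ := conn hQc hi
    (hQc.of_isClosed_subset isClosed_closure hcl) hcl
    (fun ν p q h => (hG ν p q h).imp (fun h => subset_closure h) (fun h => subset_closure h))
  have hfcl : ∀ x ∈ closure X, ⟪f, x⟫_ℝ = c := by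
    have h1 : IsClosed {x : E2 | ⟪f, x⟫_ℝ = c} := isClosed_eq (by fun_prop) continuous_const
    exact fun x hx => (h1.closure_subset_iff.2 hfX) hx
  have hfa := hfcl a ha
  have hfb := hfcl b hb
  have he0 : 0 < ⟪ν, a - b⟫_ℝ := by rw [inner_sub_right]; linarith
  have hfe : ⟪f, a - b⟫_ℝ = 0 := by rw [inner_sub_right]; linarith
  have hcr : cross f ν ≠ 0 := by
    intro h
    obtain ⟨k, hk⟩ := eq_smul_rot hf0 hfe
    rw [cross_eq] at h
    rw [hk, real_inner_smul_right, real_inner_comm, h, mul_zero] at he0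
    exact lt_irrefl _ he0
  have hseg : ∀ z ∈ Q, ⟪f, z⟫_ℝ = c → z ∈ segment ℝ b a := by
    intro z hz hzc
    set t : ℝ := (⟪ν, z⟫_ℝ - ⟪ν, b⟫_ℝ) / ⟪ν, a - b⟫_ℝ with ht
    have ht0 : 0 ≤ t := div_nonneg (by linarith [hmin z hz]) he0.le
    have ht1 : t ≤ 1 := by
      rw [ht, div_le_one he0, inner_sub_right]
      linarith [hmax z hz]
    refine ⟨1 - t, t, by linarith, ht0, by ring, ?_⟩
    refine eq_of_coords hcr ?_ ?_
    · rw [inner_add_right, real_inner_smul_right, real_inner_smul_right, hfa, hfb, hzc]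
      ring
    · have h3 : t * ⟪ν, a - b⟫_ℝ = ⟪ν, z⟫_ℝ - ⟪ν, b⟫_ℝ := by
        rw [ht, div_mul_cancel₀ _ he0.ne']
      rw [inner_sub_right] at h3
      rw [inner_add_right, real_inner_smul_right, real_inner_smul_right]
      linarith
  have hab : X ⊆ {a, b} := by
    intro x hx
    by_contra hne
    rw [mem_insert_iff, mem_singleton_iff, not_or] at hne
    obtain ⟨s, t, hs, ht, hst, hx1⟩ := hseg x (hXQ hx) (hfX x hx)
    have hs0 : 0 < s := by
      refine lt_of_le_of_ne hs fun h => hne.1 ?_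
      rw [← h] at hst hx1
      rw [← hx1]
      have : t = 1 := by linarith
      rw [this]; simp
    have ht0 : 0 < t := by
      refine lt_of_le_of_ne ht fun h => hne.2 ?_
      rw [← h] at hst hx1
      rw [← hx1]
      have : s = 1 := by linarith
      rw [this]; simp
    obtain ⟨μ, p, q, h, hpq⟩ := hX x hx
    have haQ := hcl ha
    have hbQ := hcl hb
    have e : ⟪μ, x⟫_ℝ = s * ⟪μ, b⟫_ℝ + t * ⟪μ, a⟫_ℝ := by
      rw [← hx1, inner_add_right, real_inner_smul_right, real_inner_smul_right]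
    have e' : ⟪μ, x⟫_ℝ = s * ⟪μ, x⟫_ℝ + t * ⟪μ, x⟫_ℝ := by
      rw [← add_mul, hst, one_mul]
    rcases hpq with rfl | rfl
    · have h1 := h.max a haQ (Ne.symm hne.1)
      have h2 := h.max b hbQ (Ne.symm hne.2)
      have := mul_lt_mul_of_pos_left h1 ht0
      have := mul_lt_mul_of_pos_left h2 hs0
      linarith
    · have h1 := h.min a haQ (Ne.symm hne.1)
      have h2 := h.min b hbQ (Ne.symm hne.2)
      have := mul_lt_mul_of_pos_left h1 ht0
      have := mul_lt_mul_of_pos_left h2 hs0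
      linarith
  have hclX : closure X = X := by
    have : X.Finite := (toFinite ({a, b} : Set E2)).subset hab
    exact this.isClosed.closure_eq
  rw [hclX] at ha hb
  obtain ⟨D, hD, hD1⟩ := two_dirs hQ hQc hi hf0 (hXQ ha) (hXQ hb) hfa hfb hlt hmax hmin
  refine ⟨a, ha, b, hb, D, hD, fun z hz => ?_⟩
  rcases (hfQ z hz).lt_or_eq with h | h
  · exact Or.inr (hD1 z hz h)
  · exact Or.inl (hseg z hz h)

end Pool.Agent.Q139.Sec
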