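import Pool.Agent.Q139.Sec.Nf2
import Pool.Agent.Q139.Sec.Plane3

set_option autoImplicit false

/-!
The three-dimensional case: the shadow is not a parallelogram.
-/

open Set Topology Module
open scoped InnerProductSpace
open Pool.Agent.H843R3.Had2

namespace Pool.Agent.Q139.Sec

variable {P : Set (E2 × ℝ)} {Q : Set E2}

/-- the fibre over `x` is one point -/
def Deg (P : Set (E2 × ℝ)) (x : E2) : Prop := ∀ h : ℝ, (x, h) ∈ P → h = 0

/-- the fibre over `x` has a point above the section -/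
def Up (P : Set (E2 × ℝ)) (x : E2) : Prop := ∃ h : ℝ, 0 < h ∧ (x, h) ∈ P

theorem Up.not_deg {x : E2} (h : Up P x) : ¬ Deg P x := by
  obtain ⟨t, ht, h1⟩ := h
  intro hd
  exact ht.ne' (hd t h1)

theorem Body.conv_up (H : Sh P Q) {a b z : E2} (ha : Up P a) (hb : Up P b)
    (hz : z ∈ segment ℝ b a) : Up P z := by
  obtain ⟨s, hs, h1⟩ := ha
  obtain ⟨t, ht, h2⟩ := hb
  obtain ⟨l, m, hl, hm, hlm, rfl⟩ := hz
  refine ⟨l * t + m * s, ?_, ?_⟩
  · rcases hl.eq_or_lt with h3 | h3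
    · have : m = 1 := by linarith
      rw [← h3, this]; linarith
    · have := mul_pos h3 ht
      have := mul_nonneg hm hs.le
      linarith
  · have := H.conv h2 h1 hl hm hlm
    exact this

/-- **Case A**: the points with degenerate fibres are illuminated by two directions. -/
theorem Two.caseA (H : Two P Q) (W : Finset E2) (hW3 : W.card ≤ 3)
    (hW : ∀ y ∈ Q, ∃ w ∈ W, Co Q y w) (D : Finset E2) (hD : D.card ≤ 2)
    (hD1 : ∀ z ∈ Q, Deg P z → ∃ u ∈ D, Co Q z u) : Ill P 8 := by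
  classical
  have h1 := H.count1 (D.image (fun u => (u, (0 : ℝ)))) W W (fun v hv => hW _ (H.mem hv.1))
    (fun v hv => hW _ (H.mem hv.1)) (by
      rintro v ⟨hv, hv1⟩ h0
      by_contra hcon
      push Not at hcon
      have hd : Deg P v.1 := fun h hh => by
        by_contra hne
        exact hcon h hne hh
      obtain ⟨u, hu, h2⟩ := hD1 _ (H.mem hv) hd
      refine hv1 (u, 0) (Finset.mem_image_of_mem (fun u => (u, (0 : ℝ))) hu) ?_
      have e : v = (v.1, (0 : ℝ)) := by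
        ext1
        · rfl
        · exact h0
      rw [e]
      exact H.slope h2)
  have h2 : (D.image (fun u => (u, (0 : ℝ)))).card ≤ D.card := Finset.card_image_le
  exact h1.mono (by omega)

/-- **Case B**: generic direction with no point above both contact points. -/
theorem Two.caseB (H : Two P Q) (W : Finset E2) (hW3 : W.card ≤ 3)
    (hW : ∀ y ∈ Q, ∃ w ∈ W, Co Q y w) {ν p q : E2} (hg : Gen Q ν p q) (hp : ¬ Up P p)
    (hq : ¬ Up P q) : Ill P 8 := by
  classical
  obtain ⟨B, hB, hB1⟩ := H.stepB H.comp subset_rfl W (fun v hv => hW _ (H.mem hv))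
  have h1 := H.count2 B (W.image (fun u => (u, (0 : ℝ)))) {rot ν, -rot ν} hB1
    (fun y hy => by
      obtain ⟨w, hw, h2⟩ := hW y hy
      exact Or.inl ⟨(w, 0), Finset.mem_image_of_mem (fun u => (u, (0 : ℝ))) hw, H.slope h2⟩)
    (fun v hv _ _ h0 => by
      have hne : v.1 ≠ p := by
        rintro rfl
        exact hp ⟨v.2, h0, hv⟩
      have hne' : v.1 ≠ q := by
        rintro rfl
        exact hq ⟨v.2, h0, hv⟩
      rcases gen_illum H.convQ H.intQ hg (H.mem hv) hne hne' with h | h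
      · exact ⟨_, Finset.mem_insert_self _ _, h⟩
      · exact ⟨_, Finset.mem_insert_of_mem (Finset.mem_singleton_self _), h⟩)
  have h2 : (W.image (fun u => (u, (0 : ℝ)))).card ≤ W.card := Finset.card_image_le
  have h3 : ({rot ν, -rot ν} : Finset E2).card ≤ 2 := Finset.card_le_two
  exact h1.mono (by omega)

/-- the highest point over `x` -/
theorem Body.exists_top (H : Body P Q) {x : E2} (hx : x ∈ Q) :
    ∃ h, (x, h) ∈ P ∧ ∀ h', (x, h') ∈ P → h' ≤ h := by
  rw [H.shadow] at hx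
  obtain ⟨v, hv, rfl⟩ := hx
  have hF : IsCompact (P ∩ {w | w.1 = v.1}) :=
    H.comp.inter_right (isClosed_eq continuous_fst continuous_const)
  obtain ⟨w, ⟨hw, hw1⟩, hmax⟩ := hF.exists_isMaxOn ⟨v, hv, rfl⟩ (f := fun w => w.2)
    continuous_snd.continuousOn
  have hw1 : w.1 = v.1 := hw1
  refine ⟨w.2, ?_, fun h' hh' => ?_⟩
  · rw [← hw1]; exact hw
  · have : ((v.1, h') : E2 × ℝ) ∈ P ∩ {w | w.1 = v.1} := ⟨hh', rfl⟩
    exact hmax this

/-- tilting one of the directions -/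
theorem Two.tilt (H : Two P Q) {w : E2} (R : Set (E2 × ℝ)) (hR : IsOpen R)
    (hcov : ∀ y ∈ Q, Co Q y w ∨ (y, (0 : ℝ)) ∈ R) :
    ∃ δ₀ : ℝ, 0 < δ₀ ∧ ∀ δ : ℝ, 0 < δ → δ ≤ δ₀ → ∀ y ∈ Q,
      Co P (y, (0 : ℝ)) (w, -δ) ∨ (y, (0 : ℝ)) ∈ R := by
  have e : ∀ (y : E2) (ε δ : ℝ), ((y, (0 : ℝ)) : E2 × ℝ) + ε • ((w, -δ) : E2 × ℝ) =
      (y + ε • w, -(ε * δ)) := by
    intro y ε δ
    ext1
    · rfl
    · show 0 + ε * (-δ) = _
      ring
  have hmono : ∀ (y : E2) (δ δ' : ℝ), 0 < δ → δ ≤ δ' → Co P (y, (0 : ℝ)) (w, -δ') →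
      Co P (y, (0 : ℝ)) (w, -δ) := by
    rintro y δ δ' hδ hδδ' ⟨ε, hε, h1⟩
    refine ⟨ε, hε, ?_⟩
    rw [e] at h1 ⊢
    have hδ' : 0 < δ' := by linarith
    have h2 := H.low_int h1 (s := δ / δ') (by positivity) ((div_le_one hδ').2 hδδ')
    convert h2 using 2
    field_simp
  set U : ℕ → Set E2 := fun k => {y | Co P (y, (0 : ℝ)) (w, -(1 / ((k : ℝ) + 1))) ∨
    (y, (0 : ℝ)) ∈ R} with hU
  have hUo : ∀ k, IsOpen (U k) := by
    intro k
    have : U k = (fun y : E2 => (y, (0 : ℝ))) ⁻¹'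
        ({v | Co P v (w, -(1 / ((k : ℝ) + 1)))} ∪ R) := rfl
    rw [this]
    exact ((isOpen_co P _).union hR).preimage (by fun_prop)
  obtain ⟨k, hk⟩ := H.compQ.elim_directed_cover U hUo (by
    intro y hy
    rcases hcov y hy with ⟨ε, hε, h1⟩ | h1
    · obtain ⟨η, hη, h2⟩ := Co.of_interior (H.mid _ h1) ((0 : E2), (-1 : ℝ))
      obtain ⟨k, hk⟩ := exists_nat_gt (ε / η)
      refine mem_iUnion.2 ⟨k, Or.inl ?_⟩
      refine hmono y (1 / ((k : ℝ) + 1)) (η / ε) (by positivity) ?_ ⟨ε, hε, ?_⟩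
      · rw [div_lt_iff₀ hη] at hk
        rw [div_le_div_iff₀ (by positivity) hε]
        nlinarith
      · rw [e]
        convert h2 using 1
        ext1
        · show y + ε • w = y + ε • w + η • (0 : E2)
          rw [smul_zero, add_zero]
        · show -(ε * (η / ε)) = 0 + η * (-1)
          field_simp
          ring
    · exact mem_iUnion.2 ⟨0, Or.inr h1⟩)
    (directed_of_isDirected_le (fun k l hkl y hy => by
      rcases hy with h1 | h1
      · left
        refine hmono y _ _ (by positivity) ?_ h1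
        have : (k : ℝ) ≤ l := by exact_mod_cast hkl
        exact one_div_le_one_div_of_le (by positivity) (by linarith)
      · exact Or.inr h1))
  refine ⟨1 / ((k : ℝ) + 1), by positivity, fun δ hδ hδ' y hy => ?_⟩
  rcases hk hy with h1 | h1
  · exact Or.inl (hmono y _ _ hδ hδ' h1)
  · exact Or.inr h1

/-- **Case C.** -/
theorem Two.caseC (H : Two P Q) (W : Finset E2) (hW3 : W.card ≤ 3)
    (hW : ∀ y ∈ Q, ∃ w ∈ W, Co Q y w)
    (hg : ∀ ν p q, Gen Q ν p q → (Deg P p ∧ Up P q) ∨ (Deg P q ∧ Up P p)) : Ill P 8 := by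
  classical
  obtain ⟨X, hXdef⟩ : ∃ X : Set E2, X = {x | Up P x ∧ ∃ ν p q, Gen Q ν p q ∧ (x = p ∨ x = q)} :=
    ⟨_, rfl⟩
  have hG : ∀ ν p q, Gen Q ν p q → p ∈ X ∨ q ∈ X := by
    intro ν p q h
    rw [hXdef]
    rcases hg ν p q h with ⟨_, h1⟩ | ⟨_, h1⟩
    · exact Or.inr ⟨h1, ν, p, q, h, Or.inr rfl⟩
    · exact Or.inl ⟨h1, ν, p, q, h, Or.inl rfl⟩
  by_cases hflat : (interior (convexHull ℝ X)).Nonempty
  swap
  · obtain ⟨a, ha, b, hb, D, hD, h1⟩ := line_case H.convQ H.compQ H.intQ (fun x hx => by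
      rw [hXdef] at hx
      exact hx.2) hG hflat
    rw [hXdef] at ha hb
    refine H.caseA W hW3 hW D hD fun z hz hd => ?_
    rcases h1 z hz with h2 | h2
    · exact absurd hd (Body.conv_up H.toSh ha.1 hb.1 h2).not_deg
    · exact h2
  -- the highest points over `X`
  obtain ⟨tops, htops⟩ : ∃ tops : Set (E2 × ℝ), tops = {v | v ∈ P ∧ v.1 ∈ X ∧
      ∀ h, (v.1, h) ∈ P → h ≤ v.2} := ⟨_, rfl⟩
  have hXQ : X ⊆ Q := by
    intro x hx
    rw [hXdef] at hx
    obtain ⟨_, ν, p, q, h, rfl | rfl⟩ := hx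
    · exact h.hp
    · exact h.hq
  have htP : tops ⊆ P := by rw [htops]; exact fun v hv => hv.1
  have hclP : closure tops ⊆ P := H.comp.isClosed.closure_subset_iff.2 htP
  have htne : tops.Nonempty := by
    have : X.Nonempty := by
      by_contra h
      rw [not_nonempty_iff_eq_empty] at h
      rw [h, convexHull_empty, interior_empty] at hflat
      exact not_nonempty_empty hflat
    obtain ⟨x, hx⟩ := this
    obtain ⟨h, h1, h2⟩ := H.exists_top (hXQ hx)
    exact ⟨(x, h), by rw [htops]; exact ⟨h1, hx, h2⟩⟩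
  obtain ⟨⟨x₀, c⟩, hp₀, hmin⟩ := (H.comp.of_isClosed_subset isClosed_closure hclP).exists_isMinOn
    htne.closure (f := fun v => v.2) continuous_snd.continuousOn
  have hmin' : ∀ v ∈ closure tops, c ≤ v.2 := fun v hv => hmin hv
  have hc0 : 0 ≤ c := by
    have h1 : IsClosed {v : E2 × ℝ | 0 ≤ v.2} := isClosed_le continuous_const continuous_snd
    have h2 : tops ⊆ {v : E2 × ℝ | 0 ≤ v.2} := by
      intro v hv
      rw [htops] at hv
      exact hv.2.2 0 (H.sec _ (hXQ hv.2.1))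
    exact (h1.closure_subset_iff.2 h2) hp₀
  have hXc : X ⊆ {x | (x, c) ∈ P} := by
    intro x hx
    obtain ⟨h, h1, h2⟩ := H.exists_top (hXQ hx)
    have h3 : c ≤ h := hmin' (x, h) (subset_closure (by rw [htops]; exact ⟨h1, hx, h2⟩))
    show (x, c) ∈ P
    rcases hc0.eq_or_lt with h4 | h4
    · rw [← h4]; exact H.sec _ (hXQ hx)
    · have h5 : 0 < h := by linarith
      have := H.conv (H.sec _ (hXQ hx)) h1 (a := 1 - c / h) (b := c / h)
        (by rw [sub_nonneg, div_le_one h5]; exact h3) (by positivity) (by ring)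
      convert this using 1
      ext1
      · show x = (1 - c / h) • x + (c / h) • x
        module
      · show c = (1 - c / h) * 0 + c / h * h
        field_simp
        ring
  have hconv : Convex ℝ {x : E2 | (x, c) ∈ P} := by
    intro x hx y hy a b ha hb hab
    have := H.conv hx hy ha hb hab
    show (a • x + b • y, c) ∈ P
    convert this using 1
    ext1
    · rfl
    · show c = a * c + b * c
      rw [← add_mul, hab, one_mul]
  have hhull : convexHull ℝ X ⊆ {x | (x, c) ∈ P} := convexHull_min hXc hconv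
  -- the point `k`
  obtain ⟨k, hk, hgen⟩ : ∃ k ∈ interior (convexHull ℝ X), ∃ p q, Gen Q (rot (k - x₀)) p q := by
    have hop : IsOpen ((fun ν : E2 => x₀ - rot ν) ⁻¹' interior (convexHull ℝ X)) :=
      isOpen_interior.preimage (continuous_const.sub continuous_rot)
    have hne : ((fun ν : E2 => x₀ - rot ν) ⁻¹' interior (convexHull ℝ X)).Nonempty := by
      obtain ⟨k, hk⟩ := hflat
      refine ⟨rot (k - x₀), ?_⟩
      show x₀ - rot (rot (k - x₀)) ∈ interior (convexHull ℝ X)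
      rw [rot_rot]
      have : x₀ - -(k - x₀) = k := by abel
      rw [this]; exact hk
    obtain ⟨ν, ⟨p, q, h1⟩, h2⟩ := (gen_dense H.compQ (H.intQ.mono interior_subset)).exists_mem_open
      hop hne
    refine ⟨x₀ - rot ν, h2, p, q, ?_⟩
    have : rot (x₀ - rot ν - x₀) = ν := by
      have h3 : x₀ - rot ν - x₀ = -rot ν := by abel
      rw [h3]
      apply ext2 <;> simp
    rw [this]; exact h1
  obtain ⟨w, hw⟩ : ∃ w, w = k - x₀ := ⟨_, rfl⟩
  rw [← hw] at hgen
  obtain ⟨p, q, hpq⟩ := hgen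
  have hkQ : k ∈ interior Q := by
    have : convexHull ℝ X ⊆ Q := convexHull_min hXQ H.convQ
    exact interior_mono this hk
  have hkc : (k, c) ∈ P := hhull (interior_subset hk)
  obtain ⟨δ₁, hδ₁, h1⟩ : ∃ δ₁ : ℝ, 0 < δ₁ ∧ ∀ δ, 0 < δ → δ ≤ δ₁ → (k, c - δ) ∈ interior P := by
    obtain ⟨η, hη, h2⟩ := Co.of_interior (H.mid _ hkQ) ((0 : E2), (-1 : ℝ))
    refine ⟨c + η, by linarith, fun δ hδ hδ' => ?_⟩
    have h3 := H.conv.combo_self_interior_mem_interior hkc h2 (a := 1 - δ / (c + η))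
      (b := δ / (c + η)) (by rw [sub_nonneg, div_le_one (by linarith)]; exact hδ')
      (by positivity) (by ring)
    convert h3 using 1
    have hne : c + η ≠ 0 := by linarith
    ext1
    · show k = (1 - δ / (c + η)) • k + (δ / (c + η)) • (k + η • (0 : E2))
      rw [smul_zero, add_zero]
      module
    · show c - δ = (1 - δ / (c + η)) * c + δ / (c + η) * (0 + η * (-1))
      field_simp
      ring
  -- the directions for the lower part
  obtain ⟨B, hB, hB1⟩ := H.stepB H.comp subset_rfl W (fun v hv => hW _ (H.mem hv))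
  obtain ⟨i₀, hi₀⟩ := H.intQ
  obtain ⟨z, x, hzx, hzd, hxu⟩ : ∃ z x, (∀ y, (y = p ∨ y = q) ↔ (y = z ∨ y = x)) ∧ Deg P z ∧
      Up P x := by
    rcases hg _ _ _ hpq with ⟨h2, h3⟩ | ⟨h2, h3⟩
    · exact ⟨p, q, fun y => Iff.rfl, h2, h3⟩
    · exact ⟨q, p, fun y => or_comm, h2, h3⟩
  obtain ⟨R, hR⟩ : ∃ R : Set (E2 × ℝ), R = {v | Co P v (-w, (0 : ℝ))} ∪
      {v | Co P v (i₀ - z, (0 : ℝ))} ∪ {v | ∃ u ∈ B, Co P v u} := ⟨_, rfl⟩
  have hRo : IsOpen R := by
    rw [hR]
    refine ((isOpen_co P _).union (isOpen_co P _)).union ?_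
    have : {v | ∃ u ∈ B, Co P v u} = ⋃ u ∈ B, {v | Co P v u} := by
      ext v
      simp only [Set.mem_ofPred_eq, mem_iUnion, exists_prop]
    rw [this]
    exact isOpen_biUnion fun u _ => isOpen_co P u
  obtain ⟨δ₀, hδ₀, h2⟩ := H.tilt (w := w) R hRo (by
    intro y hy
    by_cases hyz : y = z
    · right
      rw [hR]
      refine Or.inl (Or.inr (H.slope ?_))
      refine ⟨1, one_pos, ?_⟩
      rw [one_smul, hyz, add_sub_cancel]
      exact hi₀
    by_cases hyx : y = x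
    · right
      rw [hR]
      right
      obtain ⟨h, h0, h3⟩ := hxu
      obtain ⟨u, hu, h4⟩ := hB1 (y, 0) (H.sec _ hy) ⟨h, h0, by rw [hyx]; exact h3⟩
      exact ⟨u, hu, h4⟩
    have hyp : y ≠ p := fun h => ((hzx y).1 (Or.inl h)).elim hyz hyx
    have hyq : y ≠ q := fun h => ((hzx y).1 (Or.inr h)).elim hyz hyx
    rcases gen_illum H.convQ H.intQ hpq hy hyp hyq with h3 | h3
    · right
      rw [hR]
      rw [rot_rot] at h3
      exact Or.inl (Or.inl (H.slope h3))
    · left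
      rwa [rot_rot, neg_neg] at h3)
  obtain ⟨δ, hδ⟩ : ∃ δ, δ = min δ₀ δ₁ := ⟨_, rfl⟩
  have hδ0 : 0 < δ := by rw [hδ]; exact lt_min hδ₀ hδ₁
  have h3 := h2 δ hδ0 (by rw [hδ]; exact min_le_left _ _)
  have h4 := h1 δ hδ0 (by rw [hδ]; exact min_le_right _ _)
  -- a highest point which is illuminated
  obtain ⟨⟨x₁, t₁⟩, hx₁, hx₁'⟩ : ∃ v ∈ tops, v + (w, -δ) ∈ interior P := by
    have hop : IsOpen {v : E2 × ℝ | v + (w, -δ) ∈ interior P} :=
      isOpen_interior.preimage (continuous_id.add continuous_const)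
    have hmem : (x₀, c) ∈ {v : E2 × ℝ | v + (w, -δ) ∈ interior P} := by
      show (x₀, c) + (w, -δ) ∈ interior P
      convert h4 using 1
      ext1
      · show x₀ + w = k
        rw [hw]; abel
      · show c + -δ = c - δ
        ring
    obtain ⟨v, h5, h6⟩ := mem_closure_iff.1 hp₀ _ hop hmem
    exact ⟨v, h6, h5⟩
  rw [htops] at hx₁
  obtain ⟨hx₁P, hx₁X, hx₁m⟩ := hx₁
  rw [hXdef] at hx₁X
  obtain ⟨hx₁u, ν, p', q', hg', hpq'⟩ := hx₁X
  have hcount := H.count2 B {(w, -δ), (-w, 0), (i₀ - z, 0)} {rot ν, -rot ν} hB1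
    (fun y hy => by
      rcases h3 y hy with h5 | h5
      · exact Or.inl ⟨_, by simp, h5⟩
      · rw [hR] at h5
        rcases h5 with (h5 | h5) | h5
        · exact Or.inl ⟨(-w, 0), by simp, h5⟩
        · exact Or.inl ⟨(i₀ - z, 0), by simp, h5⟩
        · exact Or.inr h5)
    (fun v hv hvM hvtop h0 => by
      have hne1 : v.1 ≠ x₁ := by
        intro h5
        have h6 : v.2 = t₁ := by
          refine le_antisymm (hx₁m v.2 ?_) (hvtop t₁ ?_)
          · show (x₁, v.2) ∈ P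
            rw [← h5]; exact hv
          · rw [h5]; exact hx₁P
        refine hvM (w, -δ) (by simp) ⟨1, one_pos, ?_⟩
        have h7 : v = (x₁, t₁) := by
          ext1
          · exact h5
          · exact h6
        rw [one_smul, h7]
        exact hx₁'
      have hdeg : ∀ y, Deg P y → v.1 ≠ y := by
        rintro y hy rfl
        exact h0.ne' (hy v.2 hv)
      have hne : v.1 ≠ p' ∧ v.1 ≠ q' := by
        simp only at hpq' hx₁u
        rcases hg ν p' q' hg' with ⟨h5, h6⟩ | ⟨h5, h6⟩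
        · rcases hpq' with h7 | h7
          · rw [h7] at hx₁u
            exact absurd h5 hx₁u.not_deg
          · exact ⟨hdeg p' h5, by rw [← h7]; exact hne1⟩
        · rcases hpq' with h7 | h7
          · exact ⟨by rw [← h7]; exact hne1, hdeg q' h5⟩
          · rw [h7] at hx₁u
            exact absurd h5 hx₁u.not_deg
      rcases gen_illum H.convQ H.intQ hg' (H.mem hv) hne.1 hne.2 with h | h
      · exact ⟨_, Finset.mem_insert_self _ _, h⟩
      · exact ⟨_, Finset.mem_insert_of_mem (Finset.mem_singleton_self _), h⟩)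
  have c1 : ({(w, -δ), (-w, 0), (i₀ - z, 0)} : Finset (E2 × ℝ)).card ≤ 3 := Finset.card_le_three
  have c2 : ({rot ν, -rot ν} : Finset E2).card ≤ 2 := Finset.card_le_two
  exact hcount.mono (by omega)

/-- three directions suffice for the shadow -/
theorem Two.three (H : Two P Q) (h3 : Ill Q 3) : Ill P 8 := by
  classical
  obtain ⟨W, hW3, hW⟩ := h3
  by_cases hA : ∃ ν p q, Gen Q ν p q ∧ ¬ Deg P p ∧ ¬ Deg P q
  · obtain ⟨ν, p, q, hg, hp, hq⟩ := hA
    refine H.caseA W hW3 hW {rot ν, -rot ν} Finset.card_le_two fun z hz hd => ?_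
    rcases gen_illum H.convQ H.intQ hg hz (fun h => hp (h ▸ hd)) (fun h => hq (h ▸ hd)) with h | h
    · exact ⟨_, Finset.mem_insert_self _ _, h⟩
    · exact ⟨_, Finset.mem_insert_of_mem (Finset.mem_singleton_self _), h⟩
  by_cases hB : ∃ ν p q, Gen Q ν p q ∧ ¬ Up P p ∧ ¬ Up P q
  · obtain ⟨ν, p, q, hg, hp, hq⟩ := hB
    exact H.caseB W hW3 hW hg hp hq
  refine H.caseC W hW3 hW fun ν p q hg => ?_
  by_cases hp : Deg P p
  · left
    refine ⟨hp, ?_⟩
    by_contra hq
    exact hB ⟨ν, p, q, hg, fun h => h.not_deg hp, hq⟩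
  · right
    have hq : Deg P q := by
      by_contra hq
      exact hA ⟨ν, p, q, hg, hp, hq⟩
    refine ⟨hq, ?_⟩
    by_contra hp'
    exact hB ⟨ν, p, q, hg, hp', fun h => h.not_deg hq⟩

end Pool.Agent.Q139.Sec
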