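import Pool.Agent.Q139.Sec.Nf3

set_option autoImplicit false

/-!
The three-dimensional case: the shadow is a rectangle.
-/

open Set Topology Module
open scoped InnerProductSpace
open Pool.Agent.H843R3.Had2

namespace Pool.Agent.Q139.Sec

/-- an end point of the interval -/
def val (a b : ℝ) : Bool → ℝ := fun s => if s then b else a

/-- the direction from this end point to the other one -/
def sg : Bool → ℝ := fun s => if s then -1 else 1

theorem val_ne {a b : ℝ} (hab : a < b) (i : Bool) : val a b i ≠ val a b (!i) := by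
  cases i
  · simp [val, hab.ne]
  · simp [val, hab.ne']

theorem val_mem {a b : ℝ} (hab : a < b) (i : Bool) : a ≤ val a b i ∧ val a b i ≤ b := by
  cases i
  · simp [val, hab.le]
  · simp [val, hab.le]

theorem step1 {a b x : ℝ} (hx : a ≤ x ∧ x ≤ b) {i : Bool} (h : x ≠ val a b (!i)) :
    ∃ ε : ℝ, 0 < ε ∧ ∀ δ : ℝ, 0 < δ → δ ≤ ε → a < x + δ * sg i ∧ x + δ * sg i < b := by
  cases i
  · simp only [val, Bool.not_false, if_true] at h
    have h1 : x < b := lt_of_le_of_ne hx.2 h
    refine ⟨(b - x) / 2, by linarith, fun δ h2 h3 => ?_⟩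
    simp only [sg]
    simp
    constructor <;> linarith [hx.1]
  · simp only [val, Bool.not_true] at h
    simp at h
    have h1 : a < x := lt_of_le_of_ne hx.1 (Ne.symm h)
    refine ⟨(x - a) / 2, by linarith, fun δ h2 h3 => ?_⟩
    simp only [sg]
    simp
    constructor <;> linarith [hx.2]

theorem weights {a b x : ℝ} (hab : a < b) (hx : a ≤ x ∧ x ≤ b) :
    ∃ (i : Bool) (s t : ℝ), 0 < s ∧ 0 ≤ t ∧ s + t = 1 ∧ x = s * val a b i + t * val a b (!i) := by
  have hba : 0 < b - a := by linarith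
  rcases hx.1.eq_or_lt with h | h
  · exact ⟨false, 1, 0, one_pos, le_rfl, by ring, by simp [val, h]⟩
  · refine ⟨true, (x - a) / (b - a), (b - x) / (b - a), div_pos (by linarith) hba,
      div_nonneg (by linarith) hba.le, by field_simp; ring, ?_⟩
    simp [val]
    field_simp
    ring

variable {P : Set (E2 × ℝ)} {Q : Set E2} {a b c d : ℝ}

/-- `Q` is the rectangle `[a, b] × [c, d]` -/
structure Box (Q : Set E2) (a b c d : ℝ) : Prop where
  ab : a < b
  cd : c < d
  mem : ∀ x, x ∈ Q ↔ (a ≤ x 0 ∧ x 0 ≤ b) ∧ (c ≤ x 1 ∧ x 1 ≤ d)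

/-- the vertices -/
def ver (a b c d : ℝ) (i j : Bool) : E2 := !₂[val a b i, val c d j]

/-- the diagonals -/
def dir (i j : Bool) : E2 := !₂[sg i, sg j]

theorem Box.ver_mem (B : Box Q a b c d) (i j : Bool) : ver a b c d i j ∈ Q :=
  (B.mem _).2 ⟨val_mem B.ab i, val_mem B.cd j⟩

theorem Box.co (B : Box Q a b c d) {x : E2} (hx : x ∈ Q) {i j : Bool} (h0 : x 0 ≠ val a b (!i))
    (h1 : x 1 ≠ val c d (!j)) : Co Q x (dir i j) := by
  have hx' := (B.mem x).1 hx
  obtain ⟨ε, hε, h2⟩ := step1 hx'.1 h0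
  obtain ⟨η, hη, h3⟩ := step1 hx'.2 h1
  have hm : 0 < min ε η := lt_min hε hη
  refine ⟨min ε η, hm, ?_⟩
  have hsub : {y : E2 | (a < y 0 ∧ y 0 < b) ∧ (c < y 1 ∧ y 1 < d)} ⊆ interior Q := by
    refine interior_maximal ?_ ?_
    · rintro y ⟨⟨h4, h5⟩, h6, h7⟩
      exact (B.mem y).2 ⟨⟨h4.le, h5.le⟩, h6.le, h7.le⟩
    · have e0 : Continuous (fun y : E2 => y 0) := by fun_prop
      have e1 : Continuous (fun y : E2 => y 1) := by fun_prop
      exact ((isOpen_lt continuous_const e0).inter (isOpen_lt e0 continuous_const)).inter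
        ((isOpen_lt continuous_const e1).inter (isOpen_lt e1 continuous_const))
  exact hsub ⟨h2 _ hm (min_le_left _ _), h3 _ hm (min_le_right _ _)⟩

theorem deg_of (H : Sh P Q) {y z : E2} {s t : ℝ} (hs : 0 < s) (ht : 0 ≤ t) (hst : s + t = 1)
    (hz : z ∈ Q) (hd : Deg P (s • y + t • z)) : Deg P y := by
  intro h hh
  have h1 := H.conv hh (H.sec z hz) hs.le ht hst
  have h2 := hd (s * h + t * 0) h1
  have h3 : s * h = 0 := by linarith
  exact (mul_eq_zero.1 h3).resolve_left hs.ne'

/-- a degenerate point on a horizontal line -/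
theorem Box.deg0 (B : Box Q a b c d) (H : Sh P Q) {x : E2} (hx : x ∈ Q) (hd : Deg P x) :
    ∃ i, Deg P (!₂[val a b i, x 1] : E2) := by
  have hx' := (B.mem x).1 hx
  obtain ⟨i, s, t, hs, ht, hst, h⟩ := weights B.ab hx'.1
  refine ⟨i, deg_of H hs ht hst (z := !₂[val a b (!i), x 1])
    ((B.mem _).2 ⟨val_mem B.ab _, hx'.2⟩) ?_⟩
  convert hd using 1
  apply ext2
  · show s * val a b i + t * val a b (!i) = x 0
    exact h.symm
  · show s * x 1 + t * x 1 = x 1
    rw [← add_mul, hst, one_mul]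

/-- a degenerate point on a vertical line -/
theorem Box.deg1 (B : Box Q a b c d) (H : Sh P Q) {x : E2} (hx : x ∈ Q) (hd : Deg P x) :
    ∃ j, Deg P (!₂[x 0, val c d j] : E2) := by
  have hx' := (B.mem x).1 hx
  obtain ⟨i, s, t, hs, ht, hst, h⟩ := weights B.cd hx'.2
  refine ⟨i, deg_of H hs ht hst (z := !₂[x 0, val c d (!i)])
    ((B.mem _).2 ⟨hx'.1, val_mem B.cd _⟩) ?_⟩
  convert hd using 1
  apply ext2
  · show s * x 0 + t * x 0 = x 0
    rw [← add_mul, hst, one_mul]
  · show s * val c d i + t * val c d (!i) = x 1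
    exact h.symm

theorem Box.deg_ver (B : Box Q a b c d) (H : Sh P Q) {x : E2} (hx : x ∈ Q) (hd : Deg P x) :
    ∃ i j, Deg P (ver a b c d i j) := by
  obtain ⟨i, h1⟩ := B.deg0 H hx hd
  obtain ⟨j, h2⟩ := B.deg1 H (x := !₂[val a b i, x 1])
    ((B.mem _).2 ⟨val_mem B.ab _, ((B.mem x).1 hx).2⟩) h1
  exact ⟨i, j, h2⟩

theorem eq_ver {x : E2} {i j : Bool} (h0 : x 0 = val a b i) (h1 : x 1 = val c d j) :
    x = ver a b c d i j := ext2 h0 h1

theorem dir_inj (x : E2) {i : Bool} (hab : a < b) : x 0 ≠ val a b i ∨ x 0 ≠ val a b (!i) := by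
  by_contra h
  push Not at h
  exact val_ne hab i (h.1.symm.trans h.2)

theorem dir_inj' (x : E2) {i : Bool} (hab : a < b) : x 1 ≠ val a b i ∨ x 1 ≠ val a b (!i) := by
  by_contra h
  push Not at h
  exact val_ne hab i (h.1.symm.trans h.2)

theorem Box.four (B : Box Q a b c d) {x : E2} (hx : x ∈ Q) :
    ∃ u ∈ ({dir true true, dir true false, dir false true, dir false false} : Finset E2),
      Co Q x u := by
  rcases dir_inj (a := a) (b := b) (i := true) x B.ab with h0 | h0 <;>
  rcases dir_inj' (a := c) (b := d) (i := true) x B.cd with h1 | h1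
  · exact ⟨dir false false, by simp, B.co hx h0 h1⟩
  · exact ⟨dir false true, by simp, B.co hx h0 h1⟩
  · exact ⟨dir true false, by simp, B.co hx h0 h1⟩
  · exact ⟨dir true true, by simp, B.co hx h0 h1⟩

theorem sec_pt {v : E2 × ℝ} (h : v.2 = 0) : v = (v.1, (0 : ℝ)) := by
  ext1
  · rfl
  · exact h

/-- a diagonal with degenerate end points -/
theorem Box.diag (B : Box Q a b c d) (H : Two P Q) {i j : Bool} (h1 : Deg P (ver a b c d i j))
    (h2 : Deg P (ver a b c d (!i) (!j))) : Ill P 8 := by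
  classical
  obtain ⟨M, hM⟩ : ∃ M : Finset (E2 × ℝ), M = ({dir true true, dir true false, dir false true,
    dir false false} : Finset E2).image (fun u => (u, (0 : ℝ))) := ⟨_, rfl⟩
  have hM4 : M.card ≤ 4 := by
    rw [hM]
    exact Finset.card_image_le.trans Finset.card_le_four
  have hne : ∀ v ∈ rest P M, v.2 ≠ 0 := by
    rintro v ⟨hv, hv1⟩ h0
    obtain ⟨u, hu, h3⟩ := B.four (H.mem hv)
    refine hv1 (u, 0) (by rw [hM]; exact Finset.mem_image_of_mem (fun u => (u, (0 : ℝ))) hu) ?_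
    rw [sec_pt h0]
    exact H.slope h3
  have hdir : ∀ v ∈ rest P M, ∃ t ∈ ({dir i (!j), dir (!i) j} : Finset E2), Co Q v.1 t := by
    intro v hv
    have hvQ := H.mem hv.1
    have hdeg : ∀ y, Deg P y → v.1 ≠ y := by
      rintro y hy rfl
      exact hne v hv (hy v.2 hv.1)
    by_cases c1 : v.1 0 = val a b (!i)
    · have c2 : v.1 1 ≠ val c d (!j) := fun h => hdeg _ h2 (eq_ver c1 h)
      refine ⟨dir (!i) j, by simp, B.co hvQ ?_ c2⟩
      rw [c1, Bool.not_not]
      exact (val_ne B.ab i).symm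
    · by_cases c2 : v.1 1 = val c d j
      · have c3 : v.1 0 ≠ val a b i := fun h => hdeg _ h1 (eq_ver h c2)
        refine ⟨dir (!i) j, by simp, B.co hvQ ?_ ?_⟩
        · rw [Bool.not_not]; exact c3
        · rw [c2]; exact val_ne B.cd j
      · refine ⟨dir i (!j), by simp, B.co hvQ c1 ?_⟩
        rw [Bool.not_not]; exact c2
  have h3 := H.count1 M _ _ hdir hdir (fun v hv h0 => absurd h0 (hne v hv))
  have h4 : ({dir i (!j), dir (!i) j} : Finset E2).card ≤ 2 := Finset.card_le_two
  exact h3.mono (by omega)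

theorem Box.side0 (B : Box Q a b c d) (H : Two P Q) {i j : Bool} (h1 : Deg P (ver a b c d i j))
    (h2 : ¬ Deg P (ver a b c d (!i) (!j))) (h3 : ¬ Deg P (ver a b c d (!i) j)) : Ill P 8 := by
  classical
  have hfree : ∀ x ∈ Q, Deg P x → x 0 ≠ val a b (!i) := by
    intro x hx hd h0
    obtain ⟨k, hk⟩ := B.deg1 H.toSh hx hd
    rw [h0] at hk
    by_cases hkj : k = j
    · rw [hkj] at hk; exact h3 hk
    · have : k = !j := by
        cases k <;> cases j <;> simp_all
      rw [this] at hk; exact h2 hk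
  have hdir : ∀ v ∈ rest P {(dir i j, (0 : ℝ)), (dir i (!j), (0 : ℝ))},
      ∃ t ∈ ({dir (!i) j, dir (!i) (!j), dir i (!j)} : Finset E2), Co Q v.1 t := by
    rintro v ⟨hv, hv1⟩
    have hvQ := H.mem hv
    by_cases c1 : v.1 0 = val a b i
    · have c2 : v.1 1 ≠ val c d j := by
        intro c2
        have hver : v.1 = ver a b c d i j := eq_ver c1 c2
        have h0 : v.2 = 0 := h1 v.2 (by rw [← hver]; exact hv)
        refine hv1 (dir i j, 0) (by simp) ?_
        rw [sec_pt h0]
        exact H.slope (B.co hvQ (by rw [c1]; exact val_ne B.ab i) (by rw [c2]; exact val_ne B.cd j))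
      refine ⟨dir i (!j), by simp, B.co hvQ ?_ ?_⟩
      · rw [c1]; exact val_ne B.ab i
      · rw [Bool.not_not]; exact c2
    · rcases dir_inj' (a := c) (b := d) (i := j) v.1 B.cd with c2 | c2
      · refine ⟨dir (!i) (!j), by simp, B.co hvQ ?_ ?_⟩
        · rw [Bool.not_not]; exact c1
        · rw [Bool.not_not]; exact c2
      · refine ⟨dir (!i) j, by simp, B.co hvQ ?_ c2⟩
        rw [Bool.not_not]; exact c1
  have h4 := H.count1 {(dir i j, (0 : ℝ)), (dir i (!j), (0 : ℝ))} _ _ hdir hdir (by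
    rintro v ⟨hv, hv1⟩ h0
    by_contra hcon
    push Not at hcon
    have hd : Deg P v.1 := fun h hh => by
      by_contra hne
      exact hcon h hne hh
    have hvQ := H.mem hv
    have c1 := hfree _ hvQ hd
    rcases dir_inj' (a := c) (b := d) (i := j) v.1 B.cd with c2 | c2
    · refine hv1 (dir i (!j), 0) (by simp) ?_
      rw [sec_pt h0]
      exact H.slope (B.co hvQ c1 (by rw [Bool.not_not]; exact c2))
    · refine hv1 (dir i j, 0) (by simp) ?_
      rw [sec_pt h0]
      exact H.slope (B.co hvQ c1 c2))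
  have c1 : ({(dir i j, (0 : ℝ)), (dir i (!j), (0 : ℝ))} : Finset (E2 × ℝ)).card ≤ 2 :=
    Finset.card_le_two
  have c2 : ({dir (!i) j, dir (!i) (!j), dir i (!j)} : Finset E2).card ≤ 3 :=
    Finset.card_le_three
  exact h4.mono (by omega)

theorem Box.side1 (B : Box Q a b c d) (H : Two P Q) {i j : Bool} (h1 : Deg P (ver a b c d i j))
    (h2 : ¬ Deg P (ver a b c d (!i) (!j))) (h3 : ¬ Deg P (ver a b c d i (!j))) : Ill P 8 := by
  classical
  have hfree : ∀ x ∈ Q, Deg P x → x 1 ≠ val c d (!j) := by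
    intro x hx hd h0
    obtain ⟨k, hk⟩ := B.deg0 H.toSh hx hd
    rw [h0] at hk
    by_cases hki : k = i
    · rw [hki] at hk; exact h3 hk
    · have : k = !i := by
        cases k <;> cases i <;> simp_all
      rw [this] at hk; exact h2 hk
  have hdir : ∀ v ∈ rest P {(dir i j, (0 : ℝ)), (dir (!i) j, (0 : ℝ))},
      ∃ t ∈ ({dir i (!j), dir (!i) (!j), dir (!i) j} : Finset E2), Co Q v.1 t := by
    rintro v ⟨hv, hv1⟩
    have hvQ := H.mem hv
    by_cases c1 : v.1 1 = val c d j
    · have c2 : v.1 0 ≠ val a b i := by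
        intro c2
        have hver : v.1 = ver a b c d i j := eq_ver c2 c1
        have h0 : v.2 = 0 := h1 v.2 (by rw [← hver]; exact hv)
        refine hv1 (dir i j, 0) (by simp) ?_
        rw [sec_pt h0]
        exact H.slope (B.co hvQ (by rw [c2]; exact val_ne B.ab i) (by rw [c1]; exact val_ne B.cd j))
      refine ⟨dir (!i) j, by simp, B.co hvQ ?_ ?_⟩
      · rw [Bool.not_not]; exact c2
      · rw [c1]; exact val_ne B.cd j
    · rcases dir_inj (a := a) (b := b) (i := i) v.1 B.ab with c2 | c2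
      · refine ⟨dir (!i) (!j), by simp, B.co hvQ ?_ ?_⟩
        · rw [Bool.not_not]; exact c2
        · rw [Bool.not_not]; exact c1
      · refine ⟨dir i (!j), by simp, B.co hvQ c2 ?_⟩
        rw [Bool.not_not]; exact c1
  have h4 := H.count1 {(dir i j, (0 : ℝ)), (dir (!i) j, (0 : ℝ))} _ _ hdir hdir (by
    rintro v ⟨hv, hv1⟩ h0
    by_contra hcon
    push Not at hcon
    have hd : Deg P v.1 := fun h hh => by
      by_contra hne
      exact hcon h hne hh
    have hvQ := H.mem hv
    have c1 := hfree _ hvQ hd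
    rcases dir_inj (a := a) (b := b) (i := i) v.1 B.ab with c2 | c2
    · refine hv1 (dir (!i) j, 0) (by simp) ?_
      rw [sec_pt h0]
      exact H.slope (B.co hvQ (by rw [Bool.not_not]; exact c2) c1)
    · refine hv1 (dir i j, 0) (by simp) ?_
      rw [sec_pt h0]
      exact H.slope (B.co hvQ c2 c1))
  have c1 : ({(dir i j, (0 : ℝ)), (dir (!i) j, (0 : ℝ))} : Finset (E2 × ℝ)).card ≤ 2 :=
    Finset.card_le_two
  have c2 : ({dir i (!j), dir (!i) (!j), dir (!i) j} : Finset E2).card ≤ 3 :=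
    Finset.card_le_three
  exact h4.mono (by omega)

/-- **The rectangle.** -/
theorem Box.ill (B : Box Q a b c d) (H : Two P Q) : Ill P 8 := by
  classical
  by_cases hZ : ∃ x ∈ Q, Deg P x
  · obtain ⟨x, hx, hd⟩ := hZ
    obtain ⟨i, j, h1⟩ := B.deg_ver H.toSh hx hd
    by_cases h2 : Deg P (ver a b c d (!i) (!j))
    · exact B.diag H h1 h2
    by_cases h3 : Deg P (ver a b c d (!i) j)
    · by_cases h4 : Deg P (ver a b c d i (!j))
      · exact B.diag H h4 (by rw [Bool.not_not]; exact h3)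
      · exact B.side1 H h1 h2 h4
    · exact B.side0 H h1 h2 h3
  · have hall : ∀ v ∈ rest P ∅, ∃ t ∈ ({dir true true, dir true false, dir false true,
        dir false false} : Finset E2), Co Q v.1 t := fun v hv => B.four (H.mem hv.1)
    have h1 := H.count1 ∅ _ _ hall hall (by
      rintro v ⟨hv, _⟩ h0
      by_contra hcon
      push Not at hcon
      exact hZ ⟨v.1, H.mem hv, fun h hh => by
        by_contra hne
        exact hcon h hne hh⟩)
    have h4 : ({dir true true, dir true false, dir false true, dir false false} :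
        Finset E2).card ≤ 4 := Finset.card_le_four
    exact h1.mono (by rw [Finset.card_empty]; omega)

end Pool.Agent.Q139.Sec
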