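import Pool.Agent.Q139.Sec.Nf4
import Pool.Agent.Results.MP_5e7226_co.ExtremePointsInFlats
import Pool.Agent.Results.MP_5e7226_co.OneSidedCones

set_option autoImplicit false

/-!
The plane case, and the theorem in normal form.
-/

open Set Topology Module
open scoped InnerProductSpace
open Pool.Agent.H843R3.Had2 Pool.Agent.TH438.Hull

namespace Pool.Agent.Q139.Sec

theorem rect_of_cross {L : Set E2} (hL : Convex ℝ L)
    (hLc : IsClosed L) {c : E2} (hc : c ∈ L) (v : Fin 2 → E2) (t : Fin 2 → ℝ)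
    (hv : LinearIndependent ℝ v) (ht : ∀ i, 0 < t i)
    (h : Pol L c = convexHull ℝ (⋃ i, ({0 + v i, 0 - t i • v i} : Set E2))) :
    ∃ (Λ : E2 ≃L[ℝ] E2) (e : E2) (a b c' d : ℝ), Box (aff Λ e '' L) a b c' d := by
  classical
  let φ : E2 →ₗ[ℝ] E2 :=
    { toFun := fun x => !₂[⟪v 0, x⟫_ℝ, ⟪v 1, x⟫_ℝ]
      map_add' := fun x y => by
        apply ext2
        · simp [inner_add_right]
        · simp [inner_add_right]
      map_smul' := fun a x => by
        apply ext2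
        · simp [real_inner_smul_right]
        · simp [real_inner_smul_right] }
  have hφ0 : ∀ x, φ x 0 = ⟪v 0, x⟫_ℝ := fun _ => rfl
  have hφ1 : ∀ x, φ x 1 = ⟪v 1, x⟫_ℝ := fun _ => rfl
  have hker : LinearMap.ker φ = ⊥ := by
    rw [LinearMap.ker_eq_bot']
    intro x hx
    have h1 : ∀ i, ⟪v i, x⟫_ℝ = 0 := by
      intro i
      fin_cases i
      · show ⟪v 0, x⟫_ℝ = 0
        rw [← hφ0, hx]; rfl
      · show ⟪v 1, x⟫_ℝ = 0
        rw [← hφ1, hx]; rfl
    have h2 : x ∈ Submodule.span ℝ (Set.range v) := by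
      rw [hv.span_eq_top_of_card_eq_finrank' (by simp)]
      trivial
    have h3 : ∀ y ∈ Submodule.span ℝ (Set.range v), ⟪y, x⟫_ℝ = 0 := by
      intro y hy
      induction hy using Submodule.span_induction with
      | mem y hy =>
        obtain ⟨i, rfl⟩ := hy
        exact h1 i
      | zero => exact inner_zero_left _
      | add y z _ _ h4 h5 => rw [inner_add_left, h4, h5, add_zero]
      | smul a y _ h4 => rw [real_inner_smul_left, h4, mul_zero]
    exact inner_self_eq_zero.1 (h3 x h2)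
  let Φ : E2 ≃ₗ[ℝ] E2 :=
    LinearEquiv.ofInjectiveOfFinrankEq φ (LinearMap.ker_eq_bot.1 hker) rfl
  let Λ : E2 ≃L[ℝ] E2 := Φ.toContinuousLinearEquiv
  have hΛ0 : ∀ x, Λ x 0 = ⟪v 0, x⟫_ℝ := fun _ => rfl
  have hΛ1 : ∀ x, Λ x 1 = ⟪v 1, x⟫_ℝ := fun _ => rfl
  have hbox : ∀ x, x ∈ L ↔ ∀ i, -(t i)⁻¹ ≤ ⟪v i, x - c⟫_ℝ ∧ ⟪v i, x - c⟫_ℝ ≤ 1 := by
    intro x
    have h1 := bipolar hL hLc hc (x - c)
    rw [add_sub_cancel] at h1
    rw [← h1, h]
    constructor
    · intro h2 i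
      have h3 := h2 _ (subset_convexHull ℝ _ (mem_iUnion.2 ⟨i, Or.inl rfl⟩))
      have h4 := h2 _ (subset_convexHull ℝ _ (mem_iUnion.2 ⟨i, Or.inr rfl⟩))
      rw [sub_zero, zero_add, real_inner_comm] at h3
      rw [sub_zero, zero_sub, inner_neg_right, real_inner_smul_right, real_inner_comm] at h4
      refine ⟨?_, h3⟩
      rw [neg_le, inv_eq_one_div, le_div_iff₀ (ht i)]
      linarith
    · intro h2 y hy
      have h3 : convexHull ℝ (⋃ i, ({0 + v i, 0 - t i • v i} : Set E2)) ⊆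
          {y | ⟪x - c, y⟫_ℝ ≤ 1} := by
        refine convexHull_min ?_ ?_
        · intro y hy
          obtain ⟨i, rfl | rfl⟩ := mem_iUnion.1 hy
          · show ⟪x - c, 0 + v i⟫_ℝ ≤ 1
            rw [zero_add, real_inner_comm]
            exact (h2 i).2
          · show ⟪x - c, 0 - t i • v i⟫_ℝ ≤ 1
            rw [zero_sub, inner_neg_right, real_inner_smul_right, real_inner_comm]
            have h4 := (h2 i).1
            rw [neg_le, inv_eq_one_div, le_div_iff₀ (ht i)] at h4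
            linarith
        · intro a ha b hb p q hp hq hpq
          show ⟪x - c, p • a + q • b⟫_ℝ ≤ 1
          rw [inner_add_right, real_inner_smul_right, real_inner_smul_right]
          have ha' : ⟪x - c, a⟫_ℝ ≤ 1 := ha
          have hb' : ⟪x - c, b⟫_ℝ ≤ 1 := hb
          nlinarith
      rw [sub_zero]
      exact h3 hy
  have hneg : ∀ i, -(t i)⁻¹ < 1 := fun i => by
    have := inv_pos.2 (ht i)
    linarith
  refine ⟨Λ, -Λ c, -(t 0)⁻¹, 1, -(t 1)⁻¹, 1, hneg 0, hneg 1, fun y => ?_⟩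
  have key : ∀ x, aff Λ (-Λ c) x = Λ (x - c) := by
    intro x
    rw [aff_apply, map_sub]; abel
  constructor
  · rintro ⟨x, hx, rfl⟩
    rw [key, hΛ0, hΛ1]
    exact ⟨(hbox x).1 hx 0, (hbox x).1 hx 1⟩
  · rintro ⟨h0, h1⟩
    refine ⟨c + Λ.symm y, (hbox _).2 ?_, ?_⟩
    · rw [add_sub_cancel_left]
      intro i
      fin_cases i
      · show -(t 0)⁻¹ ≤ ⟪v 0, Λ.symm y⟫_ℝ ∧ ⟪v 0, Λ.symm y⟫_ℝ ≤ 1
        rw [← hΛ0, Λ.apply_symm_apply]; exact h0
      · show -(t 1)⁻¹ ≤ ⟪v 1, Λ.symm y⟫_ℝ ∧ ⟪v 1, Λ.symm y⟫_ℝ ≤ 1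
        rw [← hΛ1, Λ.apply_symm_apply]; exact h1
    · rw [key, add_sub_cancel_left, Λ.apply_symm_apply]

open Pool.Agent.Results.MP_5e7226_co in
/-- the plane case -/
theorem planar {Q : Set E2} (hQ : Convex ℝ Q) (hQc : IsCompact Q) (hi : (interior Q).Nonempty) :
    Ill Q 4 ∧ (Ill Q 3 ∨
      ∃ (Λ : E2 ≃L[ℝ] E2) (e : E2) (a b c d : ℝ), Box (aff Λ e '' Q) a b c d) := by
  obtain ⟨c, hc⟩ := hi
  have hK : OneSidedCones.IsBodyAt (Pol Q c) 0 :=
    ⟨Pol.convex _ _, Pol.isCompact hc, Pol.zero_mem_interior hQc⟩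
  have hlow : OneSidedCones.BothParts (Pol Q c) 0 := OneSidedCones.low (by norm_num) le_rfl hK
  refine ⟨?_, ?_⟩
  · obtain ⟨W, hW, h1⟩ := ExtremePointsInFlats.dirs_of_sep hQ hQc hc (N := 2 ^ 2) (by norm_num)
      hlow.1
    exact ⟨W, hW.trans (by norm_num), h1⟩
  · by_cases h : OneSidedCones.SeparatedBy (Pol Q c) 0 (2 ^ 2 - 1)
    · left
      obtain ⟨W, hW, h1⟩ := ExtremePointsInFlats.dirs_of_sep hQ hQc hc (N := 2 ^ 2 - 1)
        (by norm_num) h
      exact ⟨W, hW.trans (by norm_num), h1⟩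
    · right
      obtain ⟨v, t, hv, ht, h1⟩ := hlow.2 h
      exact rect_of_cross hQ hQc.isClosed (interior_subset hc) v t hv ht h1

variable {P : Set (E2 × ℝ)} {Q : Set E2}

/-- the linear equivalence of the shadow, extended to the body -/
noncomputable def ext3 (Λ : E2 ≃L[ℝ] E2) : (E2 × ℝ) ≃L[ℝ] (E2 × ℝ) :=
  Λ.prodCongr (ContinuousLinearEquiv.refl ℝ ℝ)

@[simp] theorem ext3_apply (Λ : E2 ≃L[ℝ] E2) (v : E2 × ℝ) : ext3 Λ v = (Λ v.1, v.2) := rfl

theorem Two.trans (H : Two P Q) (Λ : E2 ≃L[ℝ] E2) (e : E2) :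
    Two (aff (ext3 Λ) (e, (0 : ℝ)) '' P) (aff Λ e '' Q) := by
  have happ : ∀ v : E2 × ℝ, aff (ext3 Λ) (e, (0 : ℝ)) v = (aff Λ e v.1, v.2) := by
    intro v
    rw [aff_apply, ext3_apply, aff_apply]
    ext1
    · rfl
    · show v.2 + 0 = v.2
      rw [add_zero]
  refine ⟨⟨⟨?_, ?_, ?_, ?_⟩, ?_⟩, ?_⟩
  · rintro _ ⟨v, hv, rfl⟩ _ ⟨w, hw, rfl⟩ a b ha hb hab
    refine ⟨a • v + b • w, H.conv hv hw ha hb hab, ?_⟩
    rw [aff_apply, aff_apply, aff_apply, map_add, map_smul, map_smul]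
    obtain rfl : b = 1 - a := by linarith
    module
  · exact H.comp.image (aff (ext3 Λ) (e, (0 : ℝ))).continuous
  · rw [← (aff (ext3 Λ) (e, (0 : ℝ))).image_interior]
    exact H.int.image _
  · rw [H.shadow, image_image, image_image]
    refine image_congr fun v _ => ?_
    rw [happ]
  · rintro _ ⟨w, hw, rfl⟩
    exact ⟨(w, 0), H.sec w hw, happ _⟩
  · rw [← (aff Λ e).image_interior, ← (aff (ext3 Λ) (e, (0 : ℝ))).image_interior]
    rintro _ ⟨w, hw, rfl⟩
    exact ⟨(w, 0), H.mid w hw, happ _⟩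

/-- **The theorem in normal form.** -/
theorem Sh.eight (H : Sh P Q) : Ill P 8 := by
  obtain ⟨h4, h3⟩ := planar H.convQ H.compQ H.intQ
  obtain ⟨W, hW, hW1⟩ := h4
  by_cases hd : ∃ v ∈ P, v.2 < 0
  · by_cases hu : ∃ v ∈ P, 0 < v.2
    · have H2 := H.two hu hd
      rcases h3 with h3 | ⟨Λ, e, a, b, c, d, hB⟩
      · exact H2.three h3
      · exact Ill.of_map (ext3 Λ) (e, (0 : ℝ)) (hB.ill (H2.trans Λ e))
    · push Not at hu
      have h5 : Ill (Sec.flip P) (2 * W.card) := H.flip.facet (fun v hv => by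
        rw [mem_flip] at hv
        have := hu _ hv
        simp only at this
        linarith) W hW1
      rw [flip_eq] at h5
      exact (Ill.of_map _ _ h5).mono (by omega)
  · push Not at hd
    exact (H.facet hd W hW1).mono (by omega)

end Pool.Agent.Q139.Sec
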