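import Mathlib
import Pool.Agent.H843R3.Had2.Cone

set_option autoImplicit false

/-!
Plane convex sets: generic directions.
-/

open Set Topology Module MeasureTheory
open scoped InnerProductSpace
open Pool.Agent.H843R3.Had2

namespace Pool.Agent.Q139.Sec

abbrev E2 : Type := EuclideanSpace ℝ (Fin 2)

theorem inner2 (x y : E2) : ⟪x, y⟫_ℝ = x 0 * y 0 + x 1 * y 1 := by
  rw [PiLp.inner_apply, Fin.sum_univ_two]
  simp
  ring

theorem ext2 {x y : E2} (h0 : x 0 = y 0) (h1 : x 1 = y 1) : x = y := by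
  ext i
  fin_cases i
  · exact h0
  · exact h1

/-- the rotation by a right angle -/
noncomputable def rot (x : E2) : E2 := !₂[-(x 1), x 0]

@[simp] theorem rot_0 (x : E2) : rot x 0 = -(x 1) := rfl
@[simp] theorem rot_1 (x : E2) : rot x 1 = x 0 := rfl

theorem inner_rot (x : E2) : ⟪x, rot x⟫_ℝ = 0 := by
  rw [inner2, rot_0, rot_1]; ring

theorem rot_rot (x : E2) : rot (rot x) = -x := by
  apply ext2 <;> simp

theorem continuous_rot : Continuous rot := by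
  unfold rot
  refine (PiLp.continuous_toLp 2 _).comp ?_
  refine continuous_pi fun i => ?_
  fin_cases i
  · simp; fun_prop
  · simp; fun_prop

def cross (f g : E2) : ℝ := f 0 * g 1 - f 1 * g 0

theorem cross_eq (f g : E2) : cross f g = ⟪rot f, g⟫_ℝ := by
  rw [inner2, rot_0, rot_1, cross]; ring

/-- two independent functionals are coordinates -/
theorem eq_of_coords {f g : E2} (h : cross f g ≠ 0) {x y : E2} (hf : ⟪f, x⟫_ℝ = ⟪f, y⟫_ℝ)
    (hg : ⟪g, x⟫_ℝ = ⟪g, y⟫_ℝ) : x = y := by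
  rw [inner2, inner2] at hf hg
  unfold cross at h
  apply ext2
  · have : (f 0 * g 1 - f 1 * g 0) * (x 0 - y 0) = 0 := by
      linear_combination g 1 * hf - f 1 * hg
    rcases mul_eq_zero.1 this with h1 | h1
    · exact absurd h1 h
    · linarith
  · have : (f 0 * g 1 - f 1 * g 0) * (x 1 - y 1) = 0 := by
      linear_combination f 0 * hg - g 0 * hf
    rcases mul_eq_zero.1 this with h1 | h1
    · exact absurd h1 h
    · linarith

theorem eq_smul_rot {ν z : E2} (hν : ν ≠ 0) (h : ⟪ν, z⟫_ℝ = 0) : ∃ c : ℝ, z = c • rot ν := by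
  have hn : ν 0 ^ 2 + ν 1 ^ 2 ≠ 0 := by
    intro h0
    apply hν
    have h1 : ν 0 = 0 := by nlinarith [sq_nonneg (ν 0), sq_nonneg (ν 1)]
    have h2 : ν 1 = 0 := by nlinarith [sq_nonneg (ν 0), sq_nonneg (ν 1)]
    apply ext2 <;> simp [h1, h2]
  rw [inner2] at h
  refine ⟨(ν 0 * z 1 - ν 1 * z 0) / (ν 0 ^ 2 + ν 1 ^ 2), ?_⟩
  apply ext2
  · show z 0 = (ν 0 * z 1 - ν 1 * z 0) / (ν 0 ^ 2 + ν 1 ^ 2) * (rot ν) 0
    rw [rot_0, div_mul_eq_mul_div, eq_div_iff hn]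
    linear_combination ν 0 * h
  · show z 1 = (ν 0 * z 1 - ν 1 * z 0) / (ν 0 ^ 2 + ν 1 ^ 2) * (rot ν) 1
    rw [rot_1, div_mul_eq_mul_div, eq_div_iff hn]
    linear_combination ν 1 * h

/-! ### The support function -/

/-- the support function -/
noncomputable def sup (Q : Set E2) (ν : E2) : ℝ := sSup ((fun x => ⟪ν, x⟫_ℝ) '' Q)

theorem exists_sup {Q : Set E2} (hQ : IsCompact Q) (hne : Q.Nonempty) (ν : E2) :
    ∃ x ∈ Q, ⟪ν, x⟫_ℝ = sup Q ν ∧ ∀ y ∈ Q, ⟪ν, y⟫_ℝ ≤ ⟪ν, x⟫_ℝ := by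
  obtain ⟨x, hx, hmax⟩ := hQ.exists_isMaxOn hne (f := fun x => ⟪ν, x⟫_ℝ) (by fun_prop)
  refine ⟨x, hx, ?_, fun y hy => hmax hy⟩
  refine le_antisymm (le_csSup ?_ ⟨x, hx, rfl⟩) (csSup_le (hne.image _) ?_)
  · exact ⟨⟪ν, x⟫_ℝ, by rintro _ ⟨y, hy, rfl⟩; exact hmax hy⟩
  · rintro _ ⟨y, hy, rfl⟩; exact hmax hy

theorem le_sup {Q : Set E2} (hQ : IsCompact Q) {ν x : E2} (hx : x ∈ Q) : ⟪ν, x⟫_ℝ ≤ sup Q ν := by
  obtain ⟨y, _, h1, h2⟩ := exists_sup hQ ⟨x, hx⟩ ν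
  rw [← h1]; exact h2 x hx

theorem sup_lipschitz {Q : Set E2} (hQ : IsCompact Q) (hne : Q.Nonempty) :
    ∃ C, LipschitzWith C (sup Q) := by
  obtain ⟨C, hC⟩ := hQ.isBounded.exists_norm_le
  have hC0 : 0 ≤ C := by
    obtain ⟨x, hx⟩ := hne
    exact (norm_nonneg x).trans (hC x hx)
  have key : ∀ ν μ, sup Q ν - sup Q μ ≤ C * dist ν μ := by
    intro ν μ
    obtain ⟨x, hx, h1, _⟩ := exists_sup hQ hne ν
    have h2 := le_sup hQ (ν := μ) hx
    have h3 : ⟪ν, x⟫_ℝ - ⟪μ, x⟫_ℝ ≤ C * dist ν μ := by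
      rw [← inner_sub_left, dist_eq_norm]
      refine (real_inner_le_norm _ _).trans ?_
      rw [mul_comm]
      exact mul_le_mul_of_nonneg_right (hC x hx) (norm_nonneg _)
    linarith
  refine ⟨⟨C, hC0⟩, LipschitzWith.of_dist_le_mul fun ν μ => ?_⟩
  rw [Real.dist_eq, abs_le]
  constructor
  · have := key μ ν
    rw [dist_comm] at this
    show -(C * dist ν μ) ≤ _
    linarith
  · exact key ν μ

theorem sup_continuous {Q : Set E2} (hQ : IsCompact Q) (hne : Q.Nonempty) :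
    Continuous (sup Q) := by
  obtain ⟨C, hC⟩ := sup_lipschitz hQ hne
  exact hC.continuous

/-- `p` and `q` are the only points of `Q` at which `ν` is maximal and minimal -/
structure Gen (Q : Set E2) (ν p q : E2) : Prop where
  hp : p ∈ Q
  hq : q ∈ Q
  max : ∀ x ∈ Q, x ≠ p → ⟪ν, x⟫_ℝ < ⟪ν, p⟫_ℝ
  min : ∀ x ∈ Q, x ≠ q → ⟪ν, q⟫_ℝ < ⟪ν, x⟫_ℝ

theorem unique_of_diff {Q : Set E2} (hQ : IsCompact Q) (hne : Q.Nonempty) {ν : E2}
    (hd : DifferentiableAt ℝ (sup Q) ν) :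
    ∃ p ∈ Q, ∀ x ∈ Q, x ≠ p → ⟪ν, x⟫_ℝ < ⟪ν, p⟫_ℝ := by
  obtain ⟨p, hp, h1, h2⟩ := exists_sup hQ hne ν
  have key : ∀ y ∈ Q, ⟪ν, y⟫_ℝ = sup Q ν → fderiv ℝ (sup Q) ν = innerSL ℝ y := by
    intro y hy hyν
    have hmin : IsLocalMin (fun μ => sup Q μ - innerSL ℝ y μ) ν := by
      refine Filter.Eventually.of_forall fun μ => ?_
      have h3 := le_sup hQ (ν := μ) hy
      show sup Q ν - innerSL ℝ y ν ≤ sup Q μ - innerSL ℝ y μ
      rw [innerSL_apply_apply, innerSL_apply_apply, real_inner_comm, real_inner_comm μ y, hyν]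
      linarith
    have hd' : HasFDerivAt (fun μ => sup Q μ - innerSL ℝ y μ)
        (fderiv ℝ (sup Q) ν - innerSL ℝ y) ν :=
      hd.hasFDerivAt.sub (innerSL ℝ y).hasFDerivAt
    have := hmin.hasFDerivAt_eq_zero hd'
    exact sub_eq_zero.1 this
  refine ⟨p, hp, fun x hx hxp => lt_of_le_of_ne (h2 x hx) fun h => hxp ?_⟩
  have h3 := key p hp h1
  have h4 := key x hx (h.trans h1)
  rw [h3] at h4
  refine ext_inner_right ℝ fun z => ?_
  have := congrArg (fun f : E2 →L[ℝ] ℝ => f z) h4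
  simpa using this.symm

theorem gen_dense {Q : Set E2} (hQ : IsCompact Q) (hne : Q.Nonempty) :
    Dense {ν : E2 | ∃ p q, Gen Q ν p q} := by
  obtain ⟨C, hC⟩ := sup_lipschitz hQ hne
  have h1 : ∀ᵐ ν ∂(volume : Measure E2), DifferentiableAt ℝ (sup Q) ν := hC.ae_differentiableAt
  have hC' : LipschitzWith (C * 1) (fun ν => sup Q (-ν)) :=
    hC.comp (LipschitzWith.id.neg)
  have h2 : ∀ᵐ ν ∂(volume : Measure E2), DifferentiableAt ℝ (fun ν => sup Q (-ν)) ν :=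
    hC'.ae_differentiableAt
  refine (Measure.dense_of_ae (h1.and h2)).mono ?_
  rintro ν ⟨hd1, hd2⟩
  obtain ⟨p, hp, hp1⟩ := unique_of_diff hQ hne hd1
  have hd3 : DifferentiableAt ℝ (sup Q) (-ν) := by
    have e : sup Q = (fun ν => sup Q (-ν)) ∘ (fun ν => -ν) := by
      ext ν; simp
    rw [e]
    refine DifferentiableAt.comp _ ?_ differentiableAt_id.neg
    simpa using hd2
  obtain ⟨q, hq, hq1⟩ := unique_of_diff hQ hne hd3
  refine ⟨p, q, hp, hq, hp1, fun x hx hxq => ?_⟩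
  have := hq1 x hx hxq
  rw [inner_neg_left, inner_neg_left] at this
  linarith

end Pool.Agent.Q139.Sec
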