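import Pool.Agent.Q139.Sec.Plane

set_option autoImplicit false

/-!
Plane convex sets: directions for the points of a plane convex body.
-/

open Set Topology Module
open scoped InnerProductSpace
open Pool.Agent.H843R3.Had2

namespace Pool.Agent.Q139.Sec

variable {Q : Set E2}

theorem const_zero (hi : (interior Q).Nonempty) {ν : E2} {c : ℝ}
    (h : ∀ y ∈ Q, ⟪ν, y⟫_ℝ = c) : ν = 0 := by
  obtain ⟨i, hi⟩ := hi
  obtain ⟨ε, hε, h1⟩ := Co.of_interior hi ν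
  have h2 := h _ (interior_subset h1)
  have h3 := h _ (interior_subset hi)
  rw [inner_add_right, real_inner_smul_right, h3] at h2
  have h4 : ε * ⟪ν, ν⟫_ℝ = 0 := by linarith
  rcases mul_eq_zero.1 h4 with h5 | h5
  · exact absurd h5 hε.ne'
  · exact inner_self_eq_zero.1 h5

/-- the two directions orthogonal to `ν` -/
theorem gen_illum (hQ : Convex ℝ Q) (hi : (interior Q).Nonempty) {ν p q : E2}
    (h : Gen Q ν p q) {x : E2} (hx : x ∈ Q) (hxp : x ≠ p) (hxq : x ≠ q) :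
    Co Q x (rot ν) ∨ Co Q x (-rot ν) := by
  obtain ⟨i, hi⟩ := hi
  have h1 := h.max x hx hxp
  have h2 := h.min x hx hxq
  have hν : ν ≠ 0 := by
    rintro rfl
    simp at h1
  have key : ∀ r ∈ Q, (⟪ν, i⟫_ℝ < ⟪ν, x⟫_ℝ ∧ ⟪ν, x⟫_ℝ < ⟪ν, r⟫_ℝ) ∨
      (⟪ν, r⟫_ℝ < ⟪ν, x⟫_ℝ ∧ ⟪ν, x⟫_ℝ < ⟪ν, i⟫_ℝ) →
        ∃ y ∈ interior Q, ⟪ν, y - x⟫_ℝ = 0 := by
    intro r hr hc
    set s : ℝ := (⟪ν, x⟫_ℝ - ⟪ν, i⟫_ℝ) / (⟪ν, r⟫_ℝ - ⟪ν, i⟫_ℝ) with hs
    have hne : ⟪ν, r⟫_ℝ - ⟪ν, i⟫_ℝ ≠ 0 := by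
      rcases hc with ⟨h3, h4⟩ | ⟨h3, h4⟩
      · exact (by linarith : 0 < ⟪ν, r⟫_ℝ - ⟪ν, i⟫_ℝ).ne'
      · exact (by linarith : ⟪ν, r⟫_ℝ - ⟪ν, i⟫_ℝ < 0).ne
    have hs0 : 0 < s := by
      rcases hc with ⟨h3, h4⟩ | ⟨h3, h4⟩
      · exact div_pos (by linarith) (by linarith)
      · exact div_pos_of_neg_of_neg (by linarith) (by linarith)
    have hs1 : s < 1 := by
      rcases hc with ⟨h3, h4⟩ | ⟨h3, h4⟩
      · rw [hs, div_lt_one (by linarith)]; linarith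
      · rw [hs, div_lt_one_of_neg (by linarith)]; linarith
    refine ⟨(1 - s) • i + s • r, hQ.combo_interior_self_mem_interior hi hr (by linarith)
      hs0.le (by ring), ?_⟩
    have h5 : s * (⟪ν, r⟫_ℝ - ⟪ν, i⟫_ℝ) = ⟪ν, x⟫_ℝ - ⟪ν, i⟫_ℝ := by
      rw [hs, div_mul_cancel₀ _ hne]
    rw [inner_sub_right, inner_add_right, real_inner_smul_right, real_inner_smul_right]
    linarith
  obtain ⟨y, hy, h3⟩ : ∃ y ∈ interior Q, ⟪ν, y - x⟫_ℝ = 0 := by
    rcases lt_trichotomy ⟪ν, i⟫_ℝ ⟪ν, x⟫_ℝ with h3 | h3 | h3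
    · exact key p h.hp (Or.inl ⟨h3, h1⟩)
    · exact ⟨i, hi, by rw [inner_sub_right, h3, sub_self]⟩
    · exact key q h.hq (Or.inr ⟨h2, h3⟩)
  obtain ⟨c, hc⟩ := eq_smul_rot hν h3
  have hyx : y = x + c • rot ν := by rw [← hc]; abel
  rcases lt_trichotomy c 0 with h4 | h4 | h4
  · right
    refine ⟨-c, by linarith, ?_⟩
    rw [smul_neg, neg_smul, neg_neg, ← hyx]; exact hy
  · left
    rw [h4, zero_smul, add_zero] at hyx
    rw [← hyx]
    exact Co.of_interior hy _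
  · left
    exact ⟨c, h4, by rw [← hyx]; exact hy⟩

/-- a compact set that contains one of the two contact points for all generic directions -/
theorem conn (hQc : IsCompact Q) (hi : (interior Q).Nonempty) {F : Set E2} (hF : IsCompact F)
    (hFQ : F ⊆ Q) (hG : ∀ ν p q, Gen Q ν p q → p ∈ F ∨ q ∈ F) :
    ∃ ν : E2, ν ≠ 0 ∧ ∃ a ∈ F, ∃ b ∈ F, ⟪ν, b⟫_ℝ < ⟪ν, a⟫_ℝ ∧ (∀ y ∈ Q, ⟪ν, y⟫_ℝ ≤ ⟪ν, a⟫_ℝ) ∧
      ∀ y ∈ Q, ⟪ν, b⟫_ℝ ≤ ⟪ν, y⟫_ℝ := by
  have hQne : Q.Nonempty := hi.mono interior_subset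
  have hD := gen_dense hQc hQne
  have hFne : F.Nonempty := by
    obtain ⟨ν, p, q, h⟩ := hD.nonempty
    rcases hG ν p q h with h1 | h1
    · exact ⟨p, h1⟩
    · exact ⟨q, h1⟩
  set A : Set E2 := {ν | sup F ν = sup Q ν} with hA
  set A' : Set E2 := {ν | sup F (-ν) = sup Q (-ν)} with hA'
  have hAc : IsClosed A := isClosed_eq (sup_continuous hF hFne) (sup_continuous hQc hQne)
  have hAc' : IsClosed A' := isClosed_eq ((sup_continuous hF hFne).comp continuous_neg)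
    ((sup_continuous hQc hQne).comp continuous_neg)
  have hsup : ∀ ν p, p ∈ F → (∀ y ∈ Q, ⟪ν, y⟫_ℝ ≤ ⟪ν, p⟫_ℝ) → sup F ν = sup Q ν := by
    intro ν p hp hmax
    obtain ⟨x, hx, h1, h2⟩ := exists_sup hF hFne ν
    obtain ⟨y, hy, h3, h4⟩ := exists_sup hQc hQne ν
    rw [← h1, ← h3]
    exact le_antisymm (h4 x (hFQ hx)) ((hmax y hy).trans (h2 p hp))
  have hcov : A ∪ A' = univ := by
    have h1 : {ν : E2 | ∃ p q, Gen Q ν p q} ⊆ A ∪ A' := by
      rintro ν ⟨p, q, h⟩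
      rcases hG ν p q h with h1 | h1
      · left
        refine hsup ν p h1 fun y hy => ?_
        by_cases hyp : y = p
        · rw [hyp]
        · exact (h.max y hy hyp).le
      · right
        refine hsup (-ν) q h1 fun y hy => ?_
        rw [inner_neg_left, inner_neg_left]
        by_cases hyq : y = q
        · rw [hyq]
        · have := h.min y hy hyq
          linarith
    exact (hD.mono h1).closure_eq ▸ ((hAc.union hAc').closure_eq).symm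
  have hpre : IsPreconnected ({0}ᶜ : Set E2) :=
    (isConnected_compl_singleton_of_one_lt_rank (by
      rw [← Module.finrank_eq_rank]
      simp) 0).isPreconnected
  obtain ⟨ν₀, hν₀⟩ := exists_ne (0 : E2)
  have hmem : ∀ ν : E2, ν ∈ A ∨ ν ∈ A' := fun ν => by
    have : ν ∈ A ∪ A' := by rw [hcov]; trivial
    exact this
  have hAA : ∀ ν, ν ∈ A → -ν ∈ A' := by
    intro ν hν
    show sup F (- -ν) = sup Q (- -ν)
    rw [neg_neg]; exact hν
  have hAA' : ∀ ν, ν ∈ A' → -ν ∈ A := fun ν hν => hν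
  obtain ⟨h1, h2⟩ : (({0}ᶜ : Set E2) ∩ A).Nonempty ∧ (({0}ᶜ : Set E2) ∩ A').Nonempty := by
    rcases hmem ν₀ with h | h
    · exact ⟨⟨ν₀, hν₀, h⟩, ⟨-ν₀, neg_ne_zero.2 hν₀, hAA _ h⟩⟩
    · exact ⟨⟨-ν₀, neg_ne_zero.2 hν₀, hAA' _ h⟩, ⟨ν₀, hν₀, h⟩⟩
  obtain ⟨ν, hν0, hνA, hνA'⟩ := (isPreconnected_closed_iff.1 hpre) A A' hAc hAc'
    (by rw [hcov]; exact subset_univ _) h1 h2
  obtain ⟨a, ha, ha1, _⟩ := exists_sup hF hFne ν
  obtain ⟨b, hb, hb1, _⟩ := exists_sup hF hFne (-ν)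
  have ha2 : ∀ y ∈ Q, ⟪ν, y⟫_ℝ ≤ ⟪ν, a⟫_ℝ := by
    intro y hy
    have h3 := le_sup hQc (ν := ν) hy
    have h4 : sup F ν = sup Q ν := hνA
    rw [ha1, h4]; exact h3
  have hb2 : ∀ y ∈ Q, ⟪ν, b⟫_ℝ ≤ ⟪ν, y⟫_ℝ := by
    intro y hy
    have h3 := le_sup hQc (ν := -ν) hy
    have h4 : sup F (-ν) = sup Q (-ν) := hνA'
    rw [← h4, ← hb1, inner_neg_left, inner_neg_left] at h3
    linarith
  refine ⟨ν, hν0, a, ha, b, hb, ?_, ha2, hb2⟩
  refine lt_of_le_of_ne (hb2 a (hFQ ha)) fun h => hν0 ?_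
  refine const_zero hi (c := ⟪ν, a⟫_ℝ) fun y hy => le_antisymm (ha2 y hy) ?_
  rw [← h]; exact hb2 y hy

theorem exists_coords {u v : E2} (h : cross u v ≠ 0) (z : E2) :
    ∃ s t : ℝ, z = s • u + t • v := by
  refine ⟨cross z v / cross u v, cross u z / cross u v, ?_⟩
  unfold cross at h ⊢
  apply ext2
  · show z 0 = _ / _ * u 0 + _ / _ * v 0
    rw [div_mul_eq_mul_div, div_mul_eq_mul_div, ← add_div, eq_div_iff h]
    ring
  · show z 1 = _ / _ * u 1 + _ / _ * v 1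
    rw [div_mul_eq_mul_div, div_mul_eq_mul_div, ← add_div, eq_div_iff h]
    ring

/-- interior points of a triangle are interior points -/
theorem tri (hQ : Convex ℝ Q) (hi : (interior Q).Nonempty) {a b c : E2} (ha : a ∈ Q)
    (hb : b ∈ Q) (hc : c ∈ Q) (hcross : cross (b - a) (c - a) ≠ 0) {α β γ : ℝ} (hα : 0 < α)
    (hβ : 0 < β) (hγ : 0 < γ) (hsum : α + β + γ = 1) :
    α • a + β • b + γ • c ∈ interior Q := by
  by_contra hm
  obtain ⟨f, hf⟩ := geometric_hahn_banach_open_point hQ.interior isOpen_interior hm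
  obtain ⟨m, hmdef⟩ : ∃ m, m = α • a + β • b + γ • c := ⟨_, rfl⟩
  rw [← hmdef] at hf
  obtain ⟨i, hi⟩ := hi
  have hfi := hf i hi
  have hle : ∀ y ∈ Q, f y ≤ f m := by
    intro y hy
    by_contra hlt
    push Not at hlt
    have h0 : 0 < f y - f i := by linarith
    set t : ℝ := (f y - f m) / (2 * (f y - f i)) with ht
    have ht0 : 0 < t := div_pos (by linarith) (by linarith)
    have ht1 : t < 1 := by rw [ht, div_lt_one (by linarith)]; linarith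
    have h1 := hf _ (hQ.combo_self_interior_mem_interior hy hi (a := 1 - t) (b := t)
      (by linarith) ht0 (by ring))
    rw [map_add, map_smul, map_smul, smul_eq_mul, smul_eq_mul] at h1
    have h2 : t * (f y - f i) = (f y - f m) / 2 := by rw [ht]; field_simp
    nlinarith
  have h1 := hle a ha
  have h2 := hle b hb
  have h3 := hle c hc
  have h4 : f m = α * f a + β * f b + γ * f c := by
    rw [hmdef]; simp
  have e : α * (f m - f a) + β * (f m - f b) + γ * (f m - f c) = 0 := by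
    linear_combination (f m) * hsum + h4
  have p1 := mul_nonneg hα.le (sub_nonneg.2 h1)
  have p2 := mul_nonneg hβ.le (sub_nonneg.2 h2)
  have p3 := mul_nonneg hγ.le (sub_nonneg.2 h3)
  have e1 : f m - f a = 0 := by
    have : α * (f m - f a) = 0 := by linarith
    exact (mul_eq_zero.1 this).resolve_left hα.ne'
  have e2 : f m - f b = 0 := by
    have : β * (f m - f b) = 0 := by linarith
    exact (mul_eq_zero.1 this).resolve_left hβ.ne'
  have e3 : f m - f c = 0 := by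
    have : γ * (f m - f c) = 0 := by linarith
    exact (mul_eq_zero.1 this).resolve_left hγ.ne'
  obtain ⟨s, t, hst⟩ := exists_coords hcross (i - a)
  have h5 : f (i - a) = s * (f b - f a) + t * (f c - f a) := by
    rw [hst]; simp
  rw [map_sub] at h5
  have h6 : f b - f a = 0 := by linarith
  have h7 : f c - f a = 0 := by linarith
  rw [h6, h7] at h5
  linarith

theorem cross_rot_left (f v : E2) : cross (rot f) v = -⟪f, v⟫_ℝ := by
  rw [cross_eq, rot_rot, inner_neg_left]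

theorem cross_smul_left (c : ℝ) (f v : E2) : cross (c • f) v = c * cross f v := by
  unfold cross
  simp
  ring

/-- **Two directions** for the points off an edge whose end points have parallel supports. -/
theorem two_dirs (hQ : Convex ℝ Q) (hQc : IsCompact Q) (hi : (interior Q).Nonempty)
    {f ν a b : E2} {c : ℝ} (hf0 : f ≠ 0) (ha : a ∈ Q) (hb : b ∈ Q)
    (hfa : ⟪f, a⟫_ℝ = c) (hfb : ⟪f, b⟫_ℝ = c) (hlt : ⟪ν, b⟫_ℝ < ⟪ν, a⟫_ℝ)
    (hmax : ∀ y ∈ Q, ⟪ν, y⟫_ℝ ≤ ⟪ν, a⟫_ℝ) (hmin : ∀ y ∈ Q, ⟪ν, b⟫_ℝ ≤ ⟪ν, y⟫_ℝ) :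
    ∃ D : Finset E2, D.card ≤ 2 ∧ ∀ z ∈ Q, ⟪f, z⟫_ℝ < c → ∃ u ∈ D, Co Q z u := by
  classical
  have he0 : 0 < ⟪ν, a - b⟫_ℝ := by rw [inner_sub_right]; linarith
  have hfe : ⟪f, a - b⟫_ℝ = 0 := by rw [inner_sub_right]; linarith
  obtain ⟨k, hk⟩ := eq_smul_rot hf0 hfe
  have hcr : cross f ν ≠ 0 := by
    intro h
    rw [cross_eq] at h
    rw [hk, real_inner_smul_right, real_inner_comm, h, mul_zero] at he0
    exact lt_irrefl _ he0
  have hfr : ⟪f, rot ν⟫_ℝ ≠ 0 := by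
    intro h
    apply hcr
    rw [inner2, rot_0, rot_1] at h
    unfold cross
    linarith
  obtain ⟨d, hd⟩ : ∃ d, d = (⟪f, rot ν⟫_ℝ)⁻¹ • rot ν := ⟨_, rfl⟩
  have hfd : ⟪f, d⟫_ℝ = 1 := by rw [hd, real_inner_smul_right, inv_mul_cancel₀ hfr]
  have hνd : ⟪ν, d⟫_ℝ = 0 := by rw [hd, real_inner_smul_right, inner_rot, mul_zero]
  obtain ⟨C, hC⟩ := hQc.isBounded.exists_norm_le
  have hC0 : 0 ≤ C := (norm_nonneg a).trans (hC a ha)
  set M : ℝ := |c| + ‖f‖ * C + 1 with hM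
  have hM0 : 0 < M := by positivity
  have hq : ∀ z ∈ Q, c - ⟪f, z⟫_ℝ < M := by
    intro z hz
    have h1 : -⟪f, z⟫_ℝ ≤ ‖f‖ * C := by
      rw [← inner_neg_left]
      refine (real_inner_le_norm _ _).trans ?_
      rw [norm_neg]
      exact mul_le_mul_of_nonneg_left (hC z hz) (norm_nonneg _)
    have h2 := le_abs_self c
    linarith
  set ε : ℝ := 1 / (2 * M) with hε
  have hε0 : 0 < ε := by positivity
  have hMε : M * ε = 1 / 2 := by rw [hε]; field_simp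
  -- the key computation
  have key : ∀ z ∈ Q, ⟪f, z⟫_ℝ < c → ∀ σ : ℝ,
      0 < (⟪ν, z⟫_ℝ - ⟪ν, b⟫_ℝ) / ⟪ν, a - b⟫_ℝ + (c - ⟪f, z⟫_ℝ) * σ →
      (⟪ν, z⟫_ℝ - ⟪ν, b⟫_ℝ) / ⟪ν, a - b⟫_ℝ + (c - ⟪f, z⟫_ℝ) * σ < 1 →
        Co Q z (d + σ • (a - b)) := by
    intro z hz hzc σ h0 h1
    obtain ⟨l, hl⟩ : ∃ l, l = (⟪ν, z⟫_ℝ - ⟪ν, b⟫_ℝ) / ⟪ν, a - b⟫_ℝ + (c - ⟪f, z⟫_ℝ) * σ :=
      ⟨_, rfl⟩
    rw [← hl] at h0 h1
    have h2 : z + (c - ⟪f, z⟫_ℝ) • (d + σ • (a - b)) = b + l • (a - b) := by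
      refine eq_of_coords hcr ?_ ?_
      · rw [inner_add_right, real_inner_smul_right, inner_add_right, real_inner_smul_right, hfd,
          hfe, inner_add_right, real_inner_smul_right, hfe, hfb]
        ring
      · rw [inner_add_right, real_inner_smul_right, inner_add_right, real_inner_smul_right, hνd,
          inner_add_right, real_inner_smul_right, hl]
        field_simp
        ring
    refine ⟨(c - ⟪f, z⟫_ℝ) / 2, by linarith, ?_⟩
    have h3 : z + ((c - ⟪f, z⟫_ℝ) / 2) • (d + σ • (a - b)) =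
        ((1 - l) / 2) • b + (l / 2) • a + (1 / 2 : ℝ) • z := by
      have h4 : ((c - ⟪f, z⟫_ℝ) / 2) • (d + σ • (a - b)) =
          (1 / 2 : ℝ) • ((z + (c - ⟪f, z⟫_ℝ) • (d + σ • (a - b))) - z) := by
        rw [add_sub_cancel_left, smul_smul]
        congr 1
        ring
      rw [h4, h2]
      module
    rw [h3]
    refine tri hQ hi hb ha hz ?_ (by linarith) (by linarith) (by norm_num) (by ring)
    intro h5
    rw [hk, cross_smul_left, cross_rot_left] at h5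
    have hk0 : k ≠ 0 := by
      rintro rfl
      rw [zero_smul] at hk
      rw [hk, inner_zero_right] at he0
      exact lt_irrefl _ he0
    have h6 : ⟪f, z - b⟫_ℝ = 0 := by
      rcases mul_eq_zero.1 h5 with h | h
      · exact absurd h hk0
      · linarith
    rw [inner_sub_right, hfb] at h6
    linarith
  refine ⟨{d + ε • (a - b), d + (-ε) • (a - b)}, Finset.card_le_two, fun z hz hzc => ?_⟩
  have h1 := hq z hz
  have h2 : (c - ⟪f, z⟫_ℝ) * ε < 1 / 2 := by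
    rw [← hMε]
    exact mul_lt_mul_of_pos_right h1 hε0
  have h3 : 0 < (c - ⟪f, z⟫_ℝ) * ε := mul_pos (by linarith) hε0
  have h4 : 0 ≤ (⟪ν, z⟫_ℝ - ⟪ν, b⟫_ℝ) / ⟪ν, a - b⟫_ℝ :=
    div_nonneg (by linarith [hmin z hz]) he0.le
  have h5 : (⟪ν, z⟫_ℝ - ⟪ν, b⟫_ℝ) / ⟪ν, a - b⟫_ℝ ≤ 1 := by
    rw [div_le_one he0, inner_sub_right]
    linarith [hmax z hz]
  rcases le_total ((⟪ν, z⟫_ℝ - ⟪ν, b⟫_ℝ) / ⟪ν, a - b⟫_ℝ) (1 / 2) with h6 | h6
  · exact ⟨_, Finset.mem_insert_self _ _, key z hz hzc ε (by linarith) (by linarith)⟩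
  · refine ⟨_, Finset.mem_insert_of_mem (Finset.mem_singleton_self _),
      key z hz hzc (-ε) ?_ ?_⟩
    · rw [mul_neg]; linarith
    · rw [mul_neg]; linarith

end Pool.Agent.Q139.Sec
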