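import Pool.Agent.Q139.Sec.Nf
import Pool.Agent.W677.Summand

set_option autoImplicit false

/-!
From directions to exterior points.
-/

open Set Topology
open Pool.Agent.H843R3.Had2

namespace Pool.Agent.Q139.Sec

theorem points {E : Type*} [NormedAddCommGroup E] [NormedSpace ℝ E] {P : Set E}
    (hP : Convex ℝ P) (hPc : IsCompact P) {k : ℕ} (h : Ill P k) :
    ∃ A : Finset E, A.card ≤ k ∧ ∀ x ∈ frontier P, ∃ p ∈ A, p ∉ P ∧
      ∃ s : ℝ, 1 < s ∧ p + s • (x - p) ∈ interior P := by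
  classical
  obtain ⟨D, hD, h1⟩ := h
  obtain ⟨r, hr, h2⟩ := unif hP hPc subset_rfl (fun v : D => (v : E)) (fun x hx => by
    obtain ⟨v, hv, h2⟩ := h1 x hx
    exact ⟨⟨v, hv⟩, h2⟩)
  obtain ⟨ρ, hρ, h3⟩ := Pool.Agent.W677.Summand.depth hPc D r (fun y hy => by
    obtain ⟨w, hw⟩ := h2 y hy
    exact ⟨w, w.2, hw⟩)
  obtain ⟨C, hC⟩ := hPc.isBounded.exists_norm_le
  obtain ⟨S, hS⟩ : ∃ S : ℝ, S = ∑ u ∈ D, (|C| + 1) / ‖u‖ := ⟨_, rfl⟩
  have hS0 : 0 ≤ S := by
    rw [hS]
    exact Finset.sum_nonneg fun u _ => by positivity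
  have hSu : ∀ u ∈ D, (|C| + 1) / ‖u‖ ≤ S := by
    intro u hu
    rw [hS]
    exact Finset.single_le_sum (f := fun u => (|C| + 1) / ‖u‖) (fun _ _ => by positivity) hu
  obtain ⟨R, hR⟩ : ∃ R : ℝ, R = S + 2 * r * |C| / ρ + 1 := ⟨_, rfl⟩
  have hq : 0 ≤ 2 * r * |C| / ρ := by positivity
  have hR0 : 0 < R := by rw [hR]; linarith
  refine ⟨D.image (fun u => -(R • u)), Finset.card_image_le.trans hD, fun x hx => ?_⟩
  have hxP : x ∈ P := hPc.isClosed.frontier_subset hx
  obtain ⟨u, hu, h4⟩ := h3 x hxP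
  have hu0 : u ≠ 0 := by
    rintro rfl
    apply hx.2
    rw [mem_interior_iff_mem_nhds, Metric.mem_nhds_iff]
    refine ⟨ρ, hρ, fun y hy => ?_⟩
    have := h4 (y - x) (by
      rw [Metric.mem_ball, dist_eq_norm] at hy
      exact hy.le)
    rw [smul_zero, add_zero, add_sub_cancel] at this
    exact this
  have hun : 0 < ‖u‖ := norm_pos_iff.2 hu0
  refine ⟨-(R • u), Finset.mem_image_of_mem (fun u => -(R • u)) hu, ?_, 1 + r / R, by
    have : 0 < r / R := by positivity
    linarith, ?_⟩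
  · intro hmem
    have h5 := hC _ hmem
    rw [norm_neg, norm_smul, Real.norm_eq_abs, abs_of_pos hR0] at h5
    have h6 := hSu u hu
    rw [div_le_iff₀ hun] at h6
    have h7 : S * ‖u‖ ≤ R * ‖u‖ := mul_le_mul_of_nonneg_right (by rw [hR]; linarith) hun.le
    have h8 := le_abs_self C
    linarith
  · have e : -(R • u) + (1 + r / R) • (x - -(R • u)) = x + r • u + (r / R) • x := by
      have e1 : r • u = (r / R) • (R • u) := by
        rw [smul_smul, div_mul_cancel₀ _ hR0.ne']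
      rw [e1]; module
    rw [e]
    have h5 : ‖(r / R) • x‖ ≤ ρ / 2 := by
      rw [norm_smul, Real.norm_eq_abs, abs_of_pos (by positivity)]
      have h6 : ‖x‖ ≤ |C| := (hC x hxP).trans (le_abs_self C)
      have h7 : r / R * ‖x‖ ≤ r / R * |C| := mul_le_mul_of_nonneg_left h6 (by positivity)
      have h8 : r / R * |C| ≤ ρ / 2 := by
        rw [div_mul_eq_mul_div, div_le_iff₀ hR0]
        have h9 : 2 * r * |C| / ρ ≤ R := by rw [hR]; linarith
        rw [div_le_iff₀ hρ] at h9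
        linarith
      linarith
    rw [mem_interior_iff_mem_nhds, Metric.mem_nhds_iff]
    refine ⟨ρ / 2, by positivity, fun y hy => ?_⟩
    have h6 := h4 (y - (x + r • u)) (by
      rw [Metric.mem_ball, dist_eq_norm] at hy
      have h7 : y - (x + r • u) = (y - (x + r • u + (r / R) • x)) + (r / R) • x := by abel
      rw [h7]
      refine (norm_add_le _ _).trans ?_
      linarith)
    rw [add_sub_cancel] at h6
    exact h6

end Pool.Agent.Q139.Sec
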