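import Pool.Agent.Q139.Sec.Planar
import Pool.Agent.Q139.Cone.HullEdge

set_option autoImplicit false

/-!
From the normal form to `ℝ^(d+1)`.
-/

open Set Topology Module
open scoped InnerProductSpace
open Pool.Agent.H843R3.Had2 Pool.Agent.TH438.Hull

namespace Pool.Agent.Q139.Sec

open Pool.Agent.Q139.Cone

/-- **The bound in all dimensions, in normal form.** -/
theorem Sh.triple {E : Type*} [NormedAddCommGroup E] [NormedSpace ℝ E] {P : Set (E × ℝ)}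
    {Q : Set E} (H : Sh P Q) {N : ℕ} (h : Ill Q N) : Ill P (3 * N) := by
  classical
  obtain ⟨W, hW, hW1⟩ := h
  by_cases hd : ∃ v ∈ P, v.2 < 0
  · by_cases hu : ∃ v ∈ P, 0 < v.2
    · have H2 := H.two hu hd
      have hall : ∀ v ∈ rest P (W.image (fun w => (w, (0 : ℝ)))), ∃ t ∈ W, Co Q v.1 t :=
        fun v hv => hW1 _ (H.mem hv.1)
      have h1 := H2.count1 (W.image (fun w => (w, (0 : ℝ)))) W W hall hall (by
        rintro v ⟨hv, hv1⟩ h0
        obtain ⟨w, hw, h2⟩ := hW1 _ (H.mem hv)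
        refine absurd ?_ (hv1 (w, 0) (Finset.mem_image_of_mem (fun w => (w, (0 : ℝ))) hw))
        have e : v = (v.1, (0 : ℝ)) := by
          ext1
          · rfl
          · exact h0
        rw [e]
        exact H2.slope h2)
      have h2 : (W.image (fun w => (w, (0 : ℝ)))).card ≤ W.card := Finset.card_image_le
      exact h1.mono (by omega)
    · push Not at hu
      have h5 : Ill (Sec.flip P) (2 * W.card) := H.flip.facet (fun v hv => by
        rw [mem_flip] at hv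
        have := hu _ hv
        simp only at this
        linarith) W hW1
      rw [flip_eq] at h5
      exact (Ill.of_map _ _ h5).mono (by omega)
  · push Not at hd
    exact (H.facet hd W hW1).mono (by omega)

variable {d : ℕ}

/-- vectors orthogonal to a hyperplane -/
theorem perp_line {ι : Es d →ₗᵢ[ℝ] Es (d + 1)} {n : Es (d + 1)} (hn : n ≠ 0)
    (hp : ∀ x, ⟪n, ι x⟫_ℝ = 0) {b : Es (d + 1)} (hb : ∀ x, ⟪b, ι x⟫_ℝ = 0) :
    ∃ c : ℝ, b = c • n := by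
  set R := LinearMap.range ι.toLinearMap with hR
  have h1 : finrank ℝ R = d := by
    rw [hR, LinearMap.finrank_range_of_inj ι.injective]; simp
  have h2 : finrank ℝ Rᗮ = 1 := by
    have := R.finrank_add_finrank_orthogonal
    rw [h1] at this
    simp at this
    omega
  have hnR : n ∈ Rᗮ := by
    rw [Submodule.mem_orthogonal']
    rintro _ ⟨x, rfl⟩
    exact hp x
  have hbR : b ∈ Rᗮ := by
    rw [Submodule.mem_orthogonal']
    rintro _ ⟨x, rfl⟩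
    exact hb x
  obtain ⟨c, hc⟩ := (finrank_eq_one_iff_of_nonzero' (⟨n, hnR⟩ : Rᗮ)
    (by intro h; exact hn (congrArg Subtype.val h))).1 h2 ⟨b, hbR⟩
  exact ⟨c, (congrArg Subtype.val hc).symm⟩

/-- the coordinates: the projection along `n`, and the functional `a` -/
theorem coords {ι : Es d →ₗᵢ[ℝ] Es (d + 1)} {n a : Es (d + 1)} (hn : n ≠ 0)
    (hp : ∀ x, ⟪n, ι x⟫_ℝ = 0) (ha : ⟪a, n⟫_ℝ ≠ 0) :
    ∃ L : Es (d + 1) ≃L[ℝ] (Es d × ℝ), ∀ v, L v = (rs ι v, ⟪a, v⟫_ℝ) := by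
  let φ : Es (d + 1) →ₗ[ℝ] (Es d × ℝ) :=
    LinearMap.prod (rs ι).toLinearMap (innerSL ℝ a).toLinearMap
  have hφ : ∀ v, φ v = (rs ι v, ⟪a, v⟫_ℝ) := fun _ => rfl
  have hker : LinearMap.ker φ = ⊥ := by
    rw [LinearMap.ker_eq_bot']
    intro v hv
    rw [hφ] at hv
    have h1 : rs ι v = 0 := congrArg Prod.fst hv
    have h2 : ⟪a, v⟫_ℝ = 0 := congrArg Prod.snd hv
    obtain ⟨c, hc⟩ := perp_line hn hp (b := v) (fun x => by
      rw [← inner_rs, h1, inner_zero_left])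
    rw [hc, real_inner_smul_right] at h2
    rcases mul_eq_zero.1 h2 with h3 | h3
    · rw [hc, h3, zero_smul]
    · exact absurd h3 ha
  let Φ : Es (d + 1) ≃ₗ[ℝ] (Es d × ℝ) :=
    LinearEquiv.ofInjectiveOfFinrankEq φ (LinearMap.ker_eq_bot.1 hker) (by simp)
  exact ⟨Φ.toContinuousLinearEquiv, fun v => rfl⟩

/-- the normal form -/
theorem normal_form {P : Set (Es (d + 1))} (hP : Convex ℝ P) (hPc : IsCompact P)
    (hi : (interior P).Nonempty) {ι : Es d →ₗᵢ[ℝ] Es (d + 1)} {n a : Es (d + 1)} {b : ℝ}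
    (hn : n ≠ 0) (hp : ∀ x, ⟪n, ι x⟫_ℝ = 0) (ha : ⟪a, n⟫_ℝ ≠ 0)
    (h : ∀ x ∈ P, ∃ t : ℝ, x + t • n ∈ P ∧ ⟪a, x + t • n⟫_ℝ = b) :
    ∃ L : Es (d + 1) ≃L[ℝ] (Es d × ℝ), Sh (aff L (0, -b) '' P) (rs ι '' P) := by
  obtain ⟨L, hL⟩ := coords hn hp ha
  have hrn : rs ι n = 0 := by
    refine ext_inner_right ℝ fun x => ?_
    rw [inner_rs, hp, inner_zero_left]
  have happ : ∀ v, aff L (0, -b) v = (rs ι v, ⟪a, v⟫_ℝ - b) := by
    intro v
    rw [aff_apply, hL]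
    ext1
    · show rs ι v + 0 = rs ι v
      rw [add_zero]
    · show ⟪a, v⟫_ℝ + -b = ⟪a, v⟫_ℝ - b
      ring
  refine ⟨L, ⟨⟨?_, ?_, ?_, ?_⟩, ?_⟩⟩
  · rintro _ ⟨v, hv, rfl⟩ _ ⟨w, hw, rfl⟩ r s hr hs hrs
    refine ⟨r • v + s • w, hP hv hw hr hs hrs, ?_⟩
    rw [aff_apply, aff_apply, aff_apply, map_add, map_smul, map_smul]
    obtain rfl : s = 1 - r := by linarith
    module
  · exact hPc.image (aff L (0, -b)).continuous
  · rw [← (aff L (0, -b)).image_interior]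
    exact hi.image _
  · rw [image_image]
    refine image_congr fun v _ => ?_
    rw [happ]
  · rintro _ ⟨v, hv, rfl⟩
    obtain ⟨t, ht, ht1⟩ := h v hv
    refine ⟨v + t • n, ht, ?_⟩
    rw [happ, ht1, map_add, map_smul, hrn, smul_zero, add_zero, sub_self]

/-- **The bound in all dimensions.** -/
theorem triple {P : Set (Es (d + 1))} (hP : Convex ℝ P) (hPc : IsCompact P)
    (hi : (interior P).Nonempty) {ι : Es d →ₗᵢ[ℝ] Es (d + 1)} {n a : Es (d + 1)} {b : ℝ}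
    (hn : n ≠ 0) (hp : ∀ x, ⟪n, ι x⟫_ℝ = 0) (ha : ⟪a, n⟫_ℝ ≠ 0)
    (h : ∀ x ∈ P, ∃ t : ℝ, x + t • n ∈ P ∧ ⟪a, x + t • n⟫_ℝ = b) {N : ℕ}
    (hN : Ill (rs ι '' P) N) : Ill P (3 * N) := by
  obtain ⟨L, hL⟩ := normal_form hP hPc hi hn hp ha h
  exact Ill.of_map L (0, -b) (hL.triple hN)

/-- **Space.** -/
theorem eight {P : Set (Es 3)} (hP : Convex ℝ P) (hPc : IsCompact P) (hi : (interior P).Nonempty)
    {ι : Es 2 →ₗᵢ[ℝ] Es 3} {n a : Es 3} {b : ℝ} (hn : n ≠ 0) (hp : ∀ x, ⟪n, ι x⟫_ℝ = 0)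
    (ha : ⟪a, n⟫_ℝ ≠ 0) (h : ∀ x ∈ P, ∃ t : ℝ, x + t • n ∈ P ∧ ⟪a, x + t • n⟫_ℝ = b) :
    Ill P 8 := by
  obtain ⟨L, hL⟩ := normal_form (d := 2) hP hPc hi hn hp ha h
  exact Ill.of_map L (0, -b) hL.eight

/-- every direction is the normal of a hyperplane -/
theorem exists_plane {n : Es (d + 1)} (hn : n ≠ 0) :
    ∃ ι : Es d →ₗᵢ[ℝ] Es (d + 1), ∀ x, ⟪n, ι x⟫_ℝ = 0 := by
  have : Fact (finrank ℝ (Es (d + 1)) = d + 1) := ⟨by simp⟩
  let B := OrthonormalBasis.fromOrthogonalSpanSingleton (𝕜 := ℝ) d hn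
  refine ⟨(Submodule.subtypeₗᵢ _).comp B.repr.symm.toLinearIsometry, fun x => ?_⟩
  have h1 : ((B.repr.symm x : (Submodule.span ℝ {n})ᗮ) : Es (d + 1)) ∈
      (Submodule.span ℝ {n})ᗮ := (B.repr.symm x).2
  exact (Submodule.mem_orthogonal _ _).1 h1 n (Submodule.mem_span_singleton_self n)

end Pool.Agent.Q139.Sec
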